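import Pool.Agent.LibRCS.Char

open Set MeasureTheory Filter
open scoped Topology ENNReal

namespace Pool.Agent.LibRCS

noncomputable section

variable {d : ℕ}

lemma translate_translate (a b : Eu d) (F : ClosedSubset d) :
    ClosedSubset.translate b (ClosedSubset.translate a F) = ClosedSubset.translate (a + b) F := by
  unfold ClosedSubset.translate
  congr 1
  ext x
  simp only [mem_ofPred_eq]
  rw [sub_sub, add_comm b a]

lemma continuous_translate_right (a : Eu d) : Continuous (ClosedSubset.translate (d := d) a) :=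
  continuous_translate.comp (continuous_const.prodMk continuous_id)

/-- uniform probability on a ball -/
def ballLaw (d : ℕ) (n : ℕ) : Measure (Eu d) := ProbabilityTheory.cond volume (Metric.ball (0 : Eu d) (n + 1))

lemma ballLaw_prob (n : ℕ) : IsProbabilityMeasure (ballLaw d n) := by
  unfold ballLaw
  exact ProbabilityTheory.cond_isProbabilityMeasure_of_finite
    (Metric.measure_ball_pos volume (0 : Eu d) (by positivity)).ne' measure_ball_lt_top.ne

lemma vol_ball (x : Eu d) {r : ℝ} (hr : 0 < r) :
    (volume (Metric.ball x r)).toReal = r ^ d * (volume (Metric.ball (0 : Eu d) 1)).toReal := by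
  rw [Measure.addHaar_ball_of_pos volume x hr, ENNReal.toReal_mul, ENNReal.toReal_ofReal (by positivity)]
  congr 2
  simp

lemma ballLaw_shift (n : ℕ) (b : Eu d) (G : Eu d → ℝ) (hG : Continuous G) (C : ℝ)
    (hC : ∀ a, |G a| ≤ C) :
    |∫ a, G (a + b) ∂(ballLaw d n) - ∫ a, G a ∂(ballLaw d n)|
      ≤ 2 * C * ((((n:ℝ) + 1 + ‖b‖) / ((n:ℝ) + 1)) ^ d - 1) := by
  have hC0 : 0 ≤ C := (abs_nonneg _).trans (hC 0)
  set R : ℝ := (n:ℝ) + 1 with hR
  have hRpos : 0 < R := by positivity
  set v : ℝ := (volume (Metric.ball (0 : Eu d) 1)).toReal with hv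
  have hvpos : 0 < v := by
    rw [hv, ENNReal.toReal_pos_iff]
    exact ⟨Metric.measure_ball_pos volume (0 : Eu d) one_pos, measure_ball_lt_top⟩
  have hint : ∀ s : Set (Eu d), volume s ≠ ⊤ → IntegrableOn G s volume := by
    intro s hs
    have : IsFiniteMeasure (volume.restrict s) := ⟨by simpa using hs.lt_top⟩
    exact Integrable.of_bound hG.aestronglyMeasurable C (Eventually.of_forall (fun a => hC a))
  have hcond : ∀ g : Eu d → ℝ, ∫ a, g a ∂(ballLaw d n) = (R ^ d * v)⁻¹ * ∫ a in Metric.ball (0 : Eu d) R, g a := by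
    intro g
    unfold ballLaw ProbabilityTheory.cond
    rw [integral_smul_measure, smul_eq_mul, ENNReal.toReal_inv, vol_ball _ (by positivity)]
  rw [hcond, hcond, ← mul_sub]
  have hshift : ∫ a in Metric.ball (0 : Eu d) R, G (a + b) = ∫ a in Metric.ball b R, G a := by
    have h1 := (measurePreserving_add_right (volume : Measure (Eu d)) b).setIntegral_preimage_emb
      (MeasurableEquiv.addRight b).measurableEmbedding G (Metric.ball b R)
    rw [← h1]
    congr 2
    ext a
    simp [Metric.mem_ball, dist_eq_norm]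
  rw [hshift]
  -- compare with a big ball
  have big : ∀ c : Eu d, Metric.ball c R ⊆ Metric.ball (0 : Eu d) (R + ‖b‖) →
      |(∫ a in Metric.ball (0 : Eu d) (R + ‖b‖), G a) - ∫ a in Metric.ball c R, G a|
        ≤ C * ((R + ‖b‖) ^ d * v - R ^ d * v) := by
    intro c hc
    rw [← setIntegral_sdiff measurableSet_ball (hint _ measure_ball_lt_top.ne) hc]
    have h2 : volume.real (Metric.ball (0 : Eu d) (R + ‖b‖) \ Metric.ball c R)
        = (R + ‖b‖) ^ d * v - R ^ d * v := by
      rw [measureReal_sdiff hc measurableSet_ball, measureReal_def, measureReal_def,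
        vol_ball (0 : Eu d) (show 0 < R + ‖b‖ by positivity), vol_ball c hRpos]
    rw [← h2, ← Real.norm_eq_abs]
    apply norm_setIntegral_le_of_norm_le_const
    · exact lt_of_le_of_lt (measure_mono sdiff_subset) measure_ball_lt_top
    · intro a _
      exact hC a
  have hb1 := big 0 (Metric.ball_subset_ball (by have := norm_nonneg b; linarith))
  have hb2 := big b (by
    intro a ha
    rw [Metric.mem_ball] at ha ⊢
    calc dist a 0 ≤ dist a b + dist b 0 := dist_triangle _ _ _
      _ < R + ‖b‖ := by rw [dist_zero_right]; linarith)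
  rw [abs_mul, abs_of_pos (by positivity : 0 < (R ^ d * v)⁻¹)]
  have htri : |(∫ a in Metric.ball b R, G a) - ∫ a in Metric.ball (0 : Eu d) R, G a|
      ≤ 2 * (C * ((R + ‖b‖) ^ d * v - R ^ d * v)) := by
    rw [abs_le] at hb1 hb2 ⊢
    constructor <;> linarith [hb1.1, hb1.2, hb2.1, hb2.2]
  calc (R ^ d * v)⁻¹ * |(∫ a in Metric.ball b R, G a) - ∫ a in Metric.ball (0 : Eu d) R, G a|
      ≤ (R ^ d * v)⁻¹ * (2 * (C * ((R + ‖b‖) ^ d * v - R ^ d * v))) := by
        apply mul_le_mul_of_nonneg_left htri (by positivity)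
    _ = 2 * C * (((R + ‖b‖) / R) ^ d - 1) := by
      rw [div_pow]
      have : R ^ d ≠ 0 := by positivity
      field_simp

lemma shift_error_tendsto (b : Eu d) (C : ℝ) :
    Tendsto (fun n : ℕ => 2 * C * ((((n:ℝ) + 1 + ‖b‖) / ((n:ℝ) + 1)) ^ d - 1)) atTop (𝓝 0) := by
  have h1 : Tendsto (fun n : ℕ => 1 + ‖b‖ * (1 / ((n:ℝ) + 1))) atTop (𝓝 (1 + ‖b‖ * 0)) :=
    tendsto_const_nhds.add (tendsto_one_div_add_atTop_nhds_zero_nat.const_mul _)
  have h2 : (fun n : ℕ => 1 + ‖b‖ * (1 / ((n:ℝ) + 1))) = fun n : ℕ => ((n:ℝ) + 1 + ‖b‖) / ((n:ℝ) + 1) := by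
    funext n
    have : (n:ℝ) + 1 ≠ 0 := by positivity
    field_simp
  rw [h2] at h1
  have h3 := (((h1.pow d).sub_const 1).const_mul (2 * C))
  simpa using h3

/-- Step 3: averaging over translations -/
lemma exists_stationary (S : Eu d → ℝ) (μ : Measure (ClosedSubset d)) [IsProbabilityMeasure μ]
    (hμ : GoodMeas S μ) :
    ∃ ν : Measure (ClosedSubset d), IsProbabilityMeasure ν ∧ GoodMeas S ν ∧
      ∀ a, ν.map (ClosedSubset.translate a) = ν := by
  classical
  have hbp : ∀ n, IsProbabilityMeasure (ballLaw d n) := fun n => ballLaw_prob n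
  set Φ : Eu d × ClosedSubset d → ClosedSubset d := fun q => ClosedSubset.translate q.1 q.2 with hΦ
  have hΦc : Continuous Φ := continuous_translate
  have hΦm : Measurable Φ := hΦc.measurable
  set M : ℕ → ProbabilityMeasure (ClosedSubset d) := fun n =>
    ⟨((ballLaw d n).prod μ).map Φ, Measure.isProbabilityMeasure_map hΦm.aemeasurable⟩ with hM
  have hint : ∀ (n : ℕ) (g : BoundedContinuousFunction (ClosedSubset d) ℝ),
      ∫ G, g G ∂(M n : Measure (ClosedSubset d))
        = ∫ a, (∫ G, g (ClosedSubset.translate a G) ∂μ) ∂(ballLaw d n) := by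
    intro n g
    have h1 : ∫ G, g G ∂(M n : Measure (ClosedSubset d)) = ∫ q, g (Φ q) ∂((ballLaw d n).prod μ) := by
      exact integral_map hΦm.aemeasurable g.continuous.aestronglyMeasurable
    rw [h1, integral_prod]
    refine Integrable.of_bound ((g.continuous.comp hΦc).measurable.aestronglyMeasurable) ‖g‖
      (Eventually.of_forall (fun q => g.norm_coe_le_norm _))
  have hGc : ∀ g : BoundedContinuousFunction (ClosedSubset d) ℝ,
      Continuous (fun a : Eu d => ∫ G, g (ClosedSubset.translate a G) ∂μ) := by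
    intro g
    apply continuous_of_dominated (bound := fun _ => ‖g‖)
    · intro a
      exact (g.continuous.comp (continuous_translate_right a)).aestronglyMeasurable
    · intro a
      exact Eventually.of_forall (fun G => g.norm_coe_le_norm _)
    · exact integrable_const _
    · apply Eventually.of_forall
      intro G
      exact g.continuous.comp (continuous_translate.comp (continuous_id.prodMk continuous_const))
  have hGb : ∀ (g : BoundedContinuousFunction (ClosedSubset d) ℝ) (a : Eu d),
      |∫ G, g (ClosedSubset.translate a G) ∂μ| ≤ ‖g‖ := by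
    intro g a
    rw [← Real.norm_eq_abs]
    have := norm_integral_le_of_norm_le_const (μ := μ) (f := fun G => g (ClosedSubset.translate a G))
      (C := ‖g‖) (Eventually.of_forall (fun G => g.norm_coe_le_norm _))
    simpa using this
  set 𝒰 : Ultrafilter ℕ := Ultrafilter.of atTop with h𝒰
  have hle : (𝒰 : Filter ℕ) ≤ atTop := Ultrafilter.of_le _
  obtain ⟨ν, _, hν⟩ := isCompact_univ.ultrafilter_le_nhds (𝒰.map M) (by simp)
  have hlim : Tendsto M 𝒰 (𝓝 ν) := hν
  rw [ProbabilityMeasure.tendsto_iff_forall_integral_tendsto] at hlim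
  have htt : ∀ {r : ℝ} (hr : 0 < r) (x y a : Eu d),
      ∫ G, tt hr x y (ClosedSubset.translate a G) ∂μ = ∫ G, tt hr (x - a) (y - a) G ∂μ := by
    intro r hr x y a
    congr 1
    funext G
    rw [tt_apply, tt_apply, tent_translate, tent_translate]
  refine ⟨ν, inferInstance, ⟨?_, ?_⟩, ?_⟩
  · intro r hr x y
    apply ge_of_tendsto (hlim (tt hr x y))
    apply Eventually.of_forall
    intro n
    rw [hint]
    have h1 : ∫ _a : Eu d, S (x - y) ∂(ballLaw d n) = S (x - y) := by simp
    rw [← h1]
    apply integral_mono (integrable_const _)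
    · exact Integrable.of_bound (hGc (tt hr x y)).aestronglyMeasurable ‖tt hr x y‖
        (Eventually.of_forall (fun a => hGb (tt hr x y) a))
    · intro a
      simp only
      rw [htt]
      have := hμ.lower r hr (x - a) (y - a)
      rwa [sub_sub_sub_cancel_right] at this
  · intro ε hε
    obtain ⟨r0, hr0, hb⟩ := hμ.upper ε hε
    refine ⟨r0, hr0, fun r hr hrr x y => ?_⟩
    apply le_of_tendsto (hlim (tt hr x y))
    apply Eventually.of_forall
    intro n
    rw [hint]
    have h1 : ∫ _a : Eu d, (S (x - y) + ε) ∂(ballLaw d n) = S (x - y) + ε := by simp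
    rw [← h1]
    apply integral_mono _ (integrable_const _)
    · intro a
      simp only
      rw [htt]
      have := hb r hr hrr (x - a) (y - a)
      rwa [sub_sub_sub_cancel_right] at this
    · exact Integrable.of_bound (hGc (tt hr x y)).aestronglyMeasurable ‖tt hr x y‖
        (Eventually.of_forall (fun a => hGb (tt hr x y) a))
  · intro b
    have hbm : Measurable (ClosedSubset.translate (d := d) b) := (continuous_translate_right b).measurable
    have : IsProbabilityMeasure ((ν : Measure (ClosedSubset d)).map (ClosedSubset.translate b)) :=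
      Measure.isProbabilityMeasure_map hbm.aemeasurable
    apply ext_of_forall_integral_eq_of_IsFiniteMeasure
    intro g
    rw [integral_map hbm.aemeasurable g.continuous.aestronglyMeasurable]
    set gb : BoundedContinuousFunction (ClosedSubset d) ℝ :=
      g.compContinuous ⟨_, continuous_translate_right b⟩ with hgb
    have hl1 := hlim gb
    have hl2 := hlim g
    have hl3 := hl1.sub hl2
    have hl4 : Tendsto (fun n => ∫ G, gb G ∂(M n : Measure (ClosedSubset d)) -
        ∫ G, g G ∂(M n : Measure (ClosedSubset d))) 𝒰 (𝓝 0) := by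
      have herr := (shift_error_tendsto b ‖g‖).mono_left hle
      apply squeeze_zero_norm _ herr
      intro n
      rw [hint, hint, Real.norm_eq_abs]
      have h5 : ∀ a, ∫ G, gb (ClosedSubset.translate a G) ∂μ
          = ∫ G, g (ClosedSubset.translate (a + b) G) ∂μ := by
        intro a
        congr 1
        funext G
        change g (ClosedSubset.translate b (ClosedSubset.translate a G)) = _
        rw [translate_translate]
      simp_rw [h5]
      exact ballLaw_shift n b (fun a => ∫ G, g (ClosedSubset.translate a G) ∂μ) (hGc g) ‖g‖ (hGb g)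
    have h6 := tendsto_nhds_unique hl3 hl4
    have h7 : ∫ G, gb G ∂(ν : Measure (ClosedSubset d)) = ∫ G, g G ∂(ν : Measure (ClosedSubset d)) := by
      linarith
    exact h7

/-- Step 4: the two point function -/
lemma two_point_of_good (S : Eu d → ℝ) (ν : Measure (ClosedSubset d)) [IsProbabilityMeasure ν]
    (hν : GoodMeas S ν) (x y : Eu d) :
    ν.real {F | x ∈ F.carrier ∧ y ∈ F.carrier} = S (x - y) := by
  have hms : MeasurableSet {F : ClosedSubset d | x ∈ F.carrier ∧ y ∈ F.carrier} :=
    (measurableSet_mem x).inter (measurableSet_mem y)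
  have hlim : Tendsto (fun n : ℕ => ∫ G, tent (1 / ((n:ℝ) + 1)) x G * tent (1 / ((n:ℝ) + 1)) y G ∂ν) atTop
      (𝓝 (∫ G, ({F : ClosedSubset d | x ∈ F.carrier ∧ y ∈ F.carrier}).indicator (fun _ => (1:ℝ)) G ∂ν)) := by
    apply tendsto_integral_of_dominated_convergence (fun _ => (1:ℝ))
    · intro n
      have hr : (0:ℝ) < 1 / ((n:ℝ) + 1) := by positivity
      exact ((tent_continuous hr x).mul (tent_continuous hr y)).aestronglyMeasurable
    · exact integrable_const _
    · intro n
      apply Eventually.of_forall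
      intro G
      rw [norm_mul, Real.norm_eq_abs, Real.norm_eq_abs, abs_of_nonneg (tent_nonneg _ _ _),
        abs_of_nonneg (tent_nonneg _ _ _)]
      exact mul_le_one₀ (tent_le_one _ _ _) (tent_nonneg _ _ _) (tent_le_one _ _ _)
    · apply Eventually.of_forall
      intro G
      have h1 := (tent_tendsto x G).mul (tent_tendsto y G)
      have h2 : ({F : ClosedSubset d | x ∈ F.carrier ∧ y ∈ F.carrier}).indicator (fun _ => (1:ℝ)) G
          = ({F : ClosedSubset d | x ∈ F.carrier}).indicator (fun _ => (1:ℝ)) G *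
            ({F : ClosedSubset d | y ∈ F.carrier}).indicator (fun _ => (1:ℝ)) G := by
        by_cases hx : x ∈ G.carrier <;> by_cases hy : y ∈ G.carrier <;> simp [indicator, hx, hy]
      rw [h2]
      exact h1
  rw [integral_indicator hms] at hlim
  simp only [integral_const, MeasurableSet.univ, measureReal_restrict_apply, univ_inter, smul_eq_mul,
    mul_one] at hlim
  apply le_antisymm
  · apply le_of_forall_pos_le_add
    intro ε hε
    obtain ⟨r0, hr0, hb⟩ := hν.upper ε hε
    apply le_of_tendsto hlim
    have h0 : Tendsto (fun n : ℕ => 1 / ((n:ℝ) + 1)) atTop (𝓝 0) := tendsto_one_div_add_atTop_nhds_zero_nat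
    filter_upwards [h0.eventually (gt_mem_nhds hr0)] with n hn
    exact hb (1 / ((n:ℝ) + 1)) (by positivity) hn x y
  · apply ge_of_tendsto' hlim
    intro n
    exact hν.lower (1 / ((n:ℝ) + 1)) (by positivity) x y

/-- sufficiency -/
theorem sufficiency (S : Eu d → ℝ) (w : ℝ → ℝ) (hw : Tendsto w (𝓝[>] 0) (𝓝 0)) (h : FinIneq S w) :
    IsStationaryRCSCovariance S := by
  obtain ⟨μ, hμ, hg⟩ := exists_good S w hw h
  obtain ⟨ν, hν, hg', hst⟩ := exists_stationary S μ hg
  exact ⟨ν, hν, hst, two_point_of_good S ν hg'⟩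

end

end Pool.Agent.LibRCS
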