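import Pool.Agent.LibRCS.Defs

open Set MeasureTheory Filter
open scoped Topology

namespace Pool.Agent.LibRCS

variable {d : ℕ}

lemma isOpen_miss (K : Set (EuclideanSpace ℝ (Fin d))) (hK : IsCompact K) :
    IsOpen {F : ClosedSubset d | F.carrier ∩ K = ∅} :=
  TopologicalSpace.isOpen_generateFrom_of_mem (Or.inl ⟨K, hK, rfl⟩)

lemma isOpen_hit (U : Set (EuclideanSpace ℝ (Fin d))) (hU : IsOpen U) :
    IsOpen {F : ClosedSubset d | (F.carrier ∩ U).Nonempty} :=
  TopologicalSpace.isOpen_generateFrom_of_mem (Or.inr ⟨U, hU, rfl⟩)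

lemma measurableSet_hit_compact (K : Set (EuclideanSpace ℝ (Fin d))) (hK : IsCompact K) :
    MeasurableSet {F : ClosedSubset d | (F.carrier ∩ K).Nonempty} := by
  have : {F : ClosedSubset d | (F.carrier ∩ K).Nonempty} = {F | F.carrier ∩ K = ∅}ᶜ := by
    ext F; simp [Set.nonempty_iff_ne_empty]
  rw [this]
  exact (isOpen_miss K hK).measurableSet.compl

lemma measurableSet_mem (x : EuclideanSpace ℝ (Fin d)) :
    MeasurableSet {F : ClosedSubset d | x ∈ F.carrier} := by
  have : {F : ClosedSubset d | x ∈ F.carrier} = {F | (F.carrier ∩ {x}).Nonempty} := by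
    ext F; simp
  rw [this]
  exact measurableSet_hit_compact _ isCompact_singleton

/-- joint measurability of the membership relation -/
lemma measurableSet_graph :
    MeasurableSet {q : ClosedSubset d × EuclideanSpace ℝ (Fin d) | q.2 ∈ q.1.carrier} := by
  set D := TopologicalSpace.denseSeq (EuclideanSpace ℝ (Fin d)) with hD
  have : {q : ClosedSubset d × EuclideanSpace ℝ (Fin d) | q.2 ∈ q.1.carrier}
      = ⋂ n : ℕ, ⋃ m : ℕ, {F : ClosedSubset d | (F.carrier ∩
          Metric.closedBall (D m) (1 / ((n:ℝ) + 1))).Nonempty} ×ˢ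
          Metric.closedBall (D m) (1 / ((n:ℝ) + 1)) := by
    ext ⟨F, y⟩
    simp only [mem_ofPred_eq, mem_iInter, mem_iUnion, mem_prod]
    constructor
    · intro hy n
      obtain ⟨m, hm⟩ := (TopologicalSpace.denseRange_denseSeq (EuclideanSpace ℝ (Fin d))).exists_dist_lt
        y (show (0:ℝ) < 1 / ((n:ℝ) + 1) by positivity)
      exact ⟨m, ⟨y, hy, hm.le⟩, hm.le⟩
    · intro h
      have hcl := F.isClosed
      rw [← hcl.closure_eq, Metric.mem_closure_iff]
      intro ε hε
      obtain ⟨n, hn⟩ := exists_nat_one_div_lt (half_pos hε)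
      obtain ⟨m, ⟨z, hz, hzm⟩, hym⟩ := h n
      refine ⟨z, hz, ?_⟩
      calc dist y z ≤ dist y (D m) + dist z (D m) := dist_triangle_right _ _ _
        _ ≤ 1 / ((n:ℝ) + 1) + 1 / ((n:ℝ) + 1) := add_le_add hym hzm
        _ < ε := by linarith
  rw [this]
  exact MeasurableSet.iInter fun n => MeasurableSet.iUnion fun m =>
    (measurableSet_hit_compact _ (isCompact_closedBall _ _)).prod measurableSet_closedBall

end Pool.Agent.LibRCS
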