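import Mathlib

open Set Filter
open scoped Topology

namespace Pool.Agent.LibRCS

/-- A Farkas type lemma: a target vector is dominated by a convex combination of finitely many
vectors (with equality in the coordinates outside `P`) as soon as all valid inequalities hold. -/
lemma farkas {J ι : Type*} [Fintype J] [Fintype ι] (v : J → ι → ℝ) (t : ι → ℝ)
    (P : Set ι)
    (h : ∀ (l : ι → ℝ) (c : ℝ), (∀ i ∈ P, 0 ≤ l i) → (∀ j, c ≤ ∑ i, l i * v j i) →
      c ≤ ∑ i, l i * t i) :
    ∃ w : J → ℝ, (∀ j, 0 ≤ w j) ∧ ∑ j, w j = 1 ∧ (∀ i ∉ P, ∑ j, w j * v j i = t i) ∧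
      ∀ i ∈ P, ∑ j, w j * v j i ≤ t i := by
  classical
  set C : Set (ι → ℝ) := {u | ∃ w : J → ℝ, ((∀ j, 0 ≤ w j) ∧ ∑ j, w j = 1) ∧
    (∀ i ∉ P, ∑ j, w j * v j i = u i) ∧ ∀ i ∈ P, ∑ j, w j * v j i ≤ u i} with hC
  suffices ht : t ∈ C by
    obtain ⟨w, ⟨h1, h2⟩, h3, h4⟩ := ht
    exact ⟨w, h1, h2, h3, h4⟩
  by_contra htC
  have hconv : Convex ℝ C := by
    rintro u ⟨w, ⟨hw0, hw1⟩, hwe, hwi⟩ u' ⟨w', ⟨hw0', hw1'⟩, hwe', hwi'⟩ α β hα hβ hαβ
    have key : ∀ i, ∑ j, (α * w j + β * w' j) * v j i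
        = α * ∑ j, w j * v j i + β * ∑ j, w' j * v j i := by
      intro i
      rw [Finset.mul_sum, Finset.mul_sum, ← Finset.sum_add_distrib]
      apply Finset.sum_congr rfl
      intro j _; ring
    refine ⟨fun j => α * w j + β * w' j, ⟨fun j => ?_, ?_⟩, fun i hi => ?_, fun i hi => ?_⟩
    · have := hw0 j; have := hw0' j; positivity
    · rw [Finset.sum_add_distrib, ← Finset.mul_sum, ← Finset.mul_sum, hw1, hw1']; linarith
    · rw [key, hwe i hi, hwe' i hi]; simp
    · rw [key]
      simp only [Pi.add_apply, Pi.smul_apply, smul_eq_mul]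
      have h1 := mul_le_mul_of_nonneg_left (hwi i hi) hα
      have h2 := mul_le_mul_of_nonneg_left (hwi' i hi) hβ
      linarith
  have hclosed : IsClosed C := by
    have hK : CompactSpace ↥(stdSimplex ℝ J) := isCompact_iff_compactSpace.mp (isCompact_stdSimplex ℝ J)
    set Z : Set (↥(stdSimplex ℝ J) × (ι → ℝ)) := {q | (∀ i ∉ P, ∑ j, q.1.1 j * v j i = q.2 i) ∧
      ∀ i ∈ P, ∑ j, q.1.1 j * v j i ≤ q.2 i} with hZ
    have hcf : ∀ i, Continuous (fun q : ↥(stdSimplex ℝ J) × (ι → ℝ) => ∑ j, q.1.1 j * v j i) := by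
      intro i
      apply continuous_finsetSum
      intro j _
      exact (((continuous_apply j).comp (continuous_subtype_val.comp continuous_fst))).mul
        continuous_const
    have hcg : ∀ i, Continuous (fun q : ↥(stdSimplex ℝ J) × (ι → ℝ) => q.2 i) := fun i =>
      (continuous_apply i).comp continuous_snd
    have hZc : IsClosed Z := by
      have : Z = (⋂ i ∈ {i | i ∉ P}, {q : ↥(stdSimplex ℝ J) × (ι → ℝ) | ∑ j, q.1.1 j * v j i = q.2 i}) ∩
          ⋂ i ∈ P, {q : ↥(stdSimplex ℝ J) × (ι → ℝ) | ∑ j, q.1.1 j * v j i ≤ q.2 i} := by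
        ext q; simp [hZ]
      rw [this]
      apply IsClosed.inter
      · exact isClosed_biInter fun i _ => isClosed_eq (hcf i) (hcg i)
      · exact isClosed_biInter fun i _ => isClosed_le (hcf i) (hcg i)
    have : C = Prod.snd '' Z := by
      ext u
      constructor
      · rintro ⟨w, hw, h1, h2⟩
        exact ⟨(⟨w, hw⟩, u), ⟨h1, h2⟩, rfl⟩
      · rintro ⟨⟨w, u'⟩, ⟨h1, h2⟩, rfl⟩
        exact ⟨w.1, w.2, h1, h2⟩
    rw [this]
    exact isClosedMap_snd_of_compactSpace _ hZc
  obtain ⟨f, c, hft, hfC⟩ := geometric_hahn_banach_point_closed hconv hclosed htC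
  set l : ι → ℝ := fun i => f (Pi.single i 1) with hl
  have hf : ∀ u : ι → ℝ, f u = ∑ i, l i * u i := by
    intro u
    have h1 : u = ∑ i, u i • (Pi.single i (1:ℝ) : ι → ℝ) := by
      ext k
      simp [Finset.sum_apply, Pi.single_apply]
    conv_lhs => rw [h1]
    rw [map_sum]
    apply Finset.sum_congr rfl
    intro i _
    rw [map_smul, smul_eq_mul, mul_comm]
  have hvC : ∀ j, v j ∈ C := by
    intro j
    refine ⟨Pi.single j 1, ⟨fun k => ?_, ?_⟩, fun i _ => ?_, fun i _ => le_of_eq ?_⟩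
    · by_cases hk : k = j
      · subst hk; simp
      · simp [Pi.single_apply, hk]
    · simp
    · simp [Pi.single_apply]
    · simp [Pi.single_apply]
  by_cases hJ : IsEmpty J
  · -- no vectors: the hypothesis is contradictory
    have := h 0 1 (fun i _ => le_rfl) (fun j => (hJ.false j).elim)
    simp at this
    linarith
  rw [not_isEmpty_iff] at hJ
  obtain ⟨j0⟩ := hJ
  have hlP : ∀ i ∈ P, 0 ≤ l i := by
    intro i hi
    by_contra hneg
    push Not at hneg
    -- move far in the direction `i`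
    have hmem : ∀ s : ℝ, 0 ≤ s → v j0 + Pi.single i s ∈ C := by
      intro s hs
      obtain ⟨w, hw, h1, h2⟩ := hvC j0
      refine ⟨w, hw, fun k hk => ?_, fun k hk => ?_⟩
      · have hki : k ≠ i := fun h => hk (h ▸ hi)
        rw [h1 k hk]; simp [Pi.single_apply, hki]
      · refine (h2 k hk).trans ?_
        by_cases hki : k = i
        · subst hki; simpa using hs
        · simp [Pi.single_apply, hki]
    have hval : ∀ s : ℝ, 0 ≤ s → c < f (v j0) + s * l i := by
      intro s hs
      have := hfC _ (hmem s hs)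
      rw [map_add] at this
      have h3 : f (Pi.single i s) = s * l i := by
        rw [hf]
        rw [Finset.sum_eq_single i]
        · simp [mul_comm]
        · intro k _ hk; simp [Pi.single_apply, hk]
        · simp
      rw [h3] at this
      exact this
    have h4 := hval ((f (v j0) - c) / (- l i)) (by
      apply div_nonneg
      · have := hfC _ (hvC j0); linarith
      · linarith)
    have h5 : (f (v j0) - c) / (- l i) * l i = -(f (v j0) - c) := by
      have : l i ≠ 0 := hneg.ne
      field_simp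
    rw [h5] at h4
    linarith
  have h6 := h l c hlP (fun j => by rw [← hf]; exact (hfC _ (hvC j)).le)
  rw [← hf] at h6
  linarith

end Pool.Agent.LibRCS
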