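import Pool.Agent.LibRCS.Top
import Pool.Agent.LibRCS.Dual

open Set MeasureTheory Filter
open scoped Topology ENNReal

namespace Pool.Agent.LibRCS

noncomputable section

variable {d : ℕ}

/-- tent functions: `1` if `x ∈ F`, `0` if `F` misses the ball of radius `r` about `x` -/
def tent (r : ℝ) (x : Eu d) (F : ClosedSubset d) : ℝ :=
  1 - (min 1 (Metric.infEDist x F.carrier / ENNReal.ofReal r)).toReal

lemma min_ne_top' (a : ℝ≥0∞) : min 1 a ≠ ⊤ := ne_top_of_le_ne_top ENNReal.one_ne_top (min_le_left _ _)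

lemma tent_continuous {r : ℝ} (hr : 0 < r) (x : Eu d) : Continuous (tent r x) := by
  unfold tent
  apply continuous_const.sub
  apply ENNReal.continuousOn_toReal.comp_continuous
  · apply continuous_const.min
    exact (ENNReal.continuous_div_const _ (by simpa using hr)).comp (continuous_infEDist' x)
  · intro F; exact min_ne_top' _

lemma tent_nonneg (r : ℝ) (x : Eu d) (F : ClosedSubset d) : 0 ≤ tent r x F := by
  unfold tent
  have : (min 1 (Metric.infEDist x F.carrier / ENNReal.ofReal r)).toReal ≤ 1 := by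
    have := ENNReal.toReal_mono ENNReal.one_ne_top
      (min_le_left 1 (Metric.infEDist x F.carrier / ENNReal.ofReal r))
    simpa using this
  linarith

lemma tent_le_one (r : ℝ) (x : Eu d) (F : ClosedSubset d) : tent r x F ≤ 1 := by
  unfold tent
  have : 0 ≤ (min 1 (Metric.infEDist x F.carrier / ENNReal.ofReal r)).toReal := ENNReal.toReal_nonneg
  linarith

lemma tent_of_mem (r : ℝ) (x : Eu d) (F : ClosedSubset d) (h : x ∈ F.carrier) : tent r x F = 1 := by
  unfold tent
  rw [Metric.infEDist_zero_of_mem h]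
  simp

lemma tent_of_miss {r : ℝ} (hr : 0 < r) (x : Eu d) (F : ClosedSubset d)
    (h : ∀ y ∈ F.carrier, r ≤ dist y x) : tent r x F = 0 := by
  unfold tent
  have h1 : ENNReal.ofReal r ≤ Metric.infEDist x F.carrier := by
    rw [Metric.le_infEDist]
    intro y hy
    rw [edist_dist, dist_comm]
    exact ENNReal.ofReal_le_ofReal (h y hy)
  have h2 : 1 ≤ Metric.infEDist x F.carrier / ENNReal.ofReal r := by
    rw [ENNReal.le_div_iff_mul_le (Or.inl (by simpa using hr)) (Or.inl ENNReal.ofReal_ne_top), one_mul]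
    exact h1
  rw [min_eq_left h2]
  simp

lemma tent_translate (r : ℝ) (x a : Eu d) (F : ClosedSubset d) :
    tent r x (ClosedSubset.translate a F) = tent r (x - a) F := by
  unfold tent
  have : Metric.infEDist x (ClosedSubset.translate a F).carrier = Metric.infEDist (x - a) F.carrier := by
    apply le_antisymm
    · rw [Metric.le_infEDist]
      intro y hy
      have h1 : y + a ∈ (ClosedSubset.translate a F).carrier := by
        simp only [ClosedSubset.translate, mem_ofPred_eq]
        simpa using hy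
      calc Metric.infEDist x (ClosedSubset.translate a F).carrier ≤ edist x (y + a) :=
            Metric.infEDist_le_edist_of_mem h1
        _ = edist (x - a) y := by
          rw [edist_dist, edist_dist, dist_eq_norm, dist_eq_norm]
          congr 2
          abel
    · rw [Metric.le_infEDist]
      intro y hy
      have h1 : y - a ∈ F.carrier := hy
      calc Metric.infEDist (x - a) F.carrier ≤ edist (x - a) (y - a) :=
            Metric.infEDist_le_edist_of_mem h1
        _ = edist x y := by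
          rw [edist_dist, edist_dist, dist_sub_right]
  rw [this]

lemma tent_tendsto (x : Eu d) (F : ClosedSubset d) :
    Tendsto (fun n : ℕ => tent (1 / ((n:ℝ) + 1)) x F) atTop (𝓝 (({G : ClosedSubset d | x ∈ G.carrier}).indicator (fun _ => (1:ℝ)) F)) := by
  by_cases h : x ∈ F.carrier
  · have h1 : ({G : ClosedSubset d | x ∈ G.carrier}).indicator (fun _ => (1:ℝ)) F = 1 :=
      indicator_of_mem (show F ∈ {G : ClosedSubset d | x ∈ G.carrier} from h) _
    rw [h1]
    apply tendsto_const_nhds.congr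
    intro n
    exact (tent_of_mem _ _ _ h).symm
  · have h1 : ({G : ClosedSubset d | x ∈ G.carrier}).indicator (fun _ => (1:ℝ)) F = 0 :=
      indicator_of_notMem (show F ∉ {G : ClosedSubset d | x ∈ G.carrier} from h) _
    rw [h1]
    obtain ⟨ε, hε, hb⟩ := Metric.isOpen_iff.mp F.isClosed.isOpen_compl x h
    apply tendsto_const_nhds.congr'
    have hlim : Tendsto (fun n : ℕ => 1 / ((n:ℝ) + 1)) atTop (𝓝 0) := tendsto_one_div_add_atTop_nhds_zero_nat
    filter_upwards [hlim.eventually (gt_mem_nhds hε)] with n hn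
    symm
    apply tent_of_miss (by positivity)
    intro y hy
    by_contra hlt
    push Not at hlt
    exact hb (Metric.mem_ball.mpr (hlt.trans hn)) hy

/-- product of two tents, as a bounded continuous function -/
def tt {r : ℝ} (hr : 0 < r) (x y : Eu d) : BoundedContinuousFunction (ClosedSubset d) ℝ :=
  BoundedContinuousFunction.mkOfCompact ⟨fun F => tent r x F * tent r y F,
    (tent_continuous hr x).mul (tent_continuous hr y)⟩

@[simp] lemma tt_apply {r : ℝ} (hr : 0 < r) (x y : Eu d) (F : ClosedSubset d) :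
    tt hr x y F = tent r x F * tent r y F := rfl

/-- the finite inequalities -/
def FinIneq (S : Eu d → ℝ) (w : ℝ → ℝ) : Prop :=
  ∀ (F : Finset (Eu d)) (a : Eu d → Eu d → ℝ) (b : Finset (Eu d) → ℝ) (c : ℝ),
    (∀ D, 0 ≤ b D) →
    (∀ T ⊆ F, c ≤ ∑ x ∈ T, ∑ y ∈ T, a x y +
      ∑ D ∈ F.powerset, (({T : Finset (Eu d) | ∃ x ∈ D, x ∈ T}).indicator (fun _ => b D) T)) →
    c ≤ ∑ x ∈ F, ∑ y ∈ F, a x y * S (x - y) +
      ∑ D ∈ F.powerset, b D * (S 0 + w (Metric.diam (D : Set (Eu d))))

/-- Step 1: random finite sets -/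
lemma exists_weights (S : Eu d → ℝ) (w : ℝ → ℝ) (h : FinIneq S w) (F : Finset (Eu d)) :
    ∃ p : Finset (Eu d) → ℝ, (∀ T, 0 ≤ p T) ∧ ∑ T ∈ F.powerset, p T = 1 ∧
      (∀ x ∈ F, ∀ y ∈ F, ∑ T ∈ F.powerset,
        p T * (({T : Finset (Eu d) | x ∈ T ∧ y ∈ T}).indicator (fun _ => (1:ℝ)) T) = S (x - y)) ∧
      (∀ D ⊆ F, ∑ T ∈ F.powerset,
        p T * (({T : Finset (Eu d) | ∃ x ∈ D, x ∈ T}).indicator (fun _ => (1:ℝ)) T)
          ≤ S 0 + w (Metric.diam (D : Set (Eu d)))) := by
  classical
  set v : ↥F.powerset → ((↥F × ↥F) ⊕ ↥F.powerset) → ℝ := fun T i => match i with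
    | Sum.inl q => ({T : Finset (Eu d) | q.1.1 ∈ T ∧ q.2.1 ∈ T}).indicator (fun _ => (1:ℝ)) T.1
    | Sum.inr D => ({T : Finset (Eu d) | ∃ x ∈ D.1, x ∈ T}).indicator (fun _ => (1:ℝ)) T.1 with hv
  set t : ((↥F × ↥F) ⊕ ↥F.powerset) → ℝ := fun i => match i with
    | Sum.inl q => S (q.1.1 - q.2.1)
    | Sum.inr D => S 0 + w (Metric.diam (D.1 : Set (Eu d))) with ht
  have key := farkas v t (range Sum.inr) (by
    intro l c hl hc
    set a : Eu d → Eu d → ℝ := fun x y => if h : x ∈ F ∧ y ∈ F then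
      l (Sum.inl (⟨x, h.1⟩, ⟨y, h.2⟩)) else 0 with ha
    set b : Finset (Eu d) → ℝ := fun D => if h : D ∈ F.powerset then l (Sum.inr ⟨D, h⟩) else 0 with hb
    have e1 : ∀ g : Eu d → Eu d → ℝ, ∑ q : ↥F × ↥F, l (Sum.inl q) * g q.1.1 q.2.1
        = ∑ x ∈ F, ∑ y ∈ F, a x y * g x y := by
      intro g
      rw [Fintype.sum_prod_type, ← Finset.sum_coe_sort F]
      apply Finset.sum_congr rfl
      intro x _
      rw [← Finset.sum_coe_sort F]
      apply Finset.sum_congr rfl
      intro y _
      simp [ha]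
    have e2 : ∀ g : Finset (Eu d) → ℝ, ∑ D : ↥F.powerset, l (Sum.inr D) * g D.1
        = ∑ D ∈ F.powerset, b D * g D := by
      intro g
      rw [← Finset.sum_coe_sort F.powerset]
      apply Finset.sum_congr rfl
      intro D _
      have : b D.1 = l (Sum.inr D) := by
        simp only [hb]
        rw [dif_pos D.2]
      rw [this]
    have hgoal : ∑ i, l i * t i = ∑ x ∈ F, ∑ y ∈ F, a x y * S (x - y) +
        ∑ D ∈ F.powerset, b D * (S 0 + w (Metric.diam (D : Set (Eu d)))) := by
      rw [Fintype.sum_sum_type, ← e1 (fun x y => S (x - y)), ← e2 (fun D => S 0 + w (Metric.diam (D : Set (Eu d))))]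
    rw [hgoal]
    apply h F a b c
    · intro D
      simp only [hb]
      split_ifs with hD
      · exact hl _ ⟨_, rfl⟩
      · exact le_rfl
    · intro T hT
      have h1 := hc ⟨T, Finset.mem_powerset.mpr hT⟩
      rw [Fintype.sum_sum_type] at h1
      have h2 := e1 (fun x y => ({T : Finset (Eu d) | x ∈ T ∧ y ∈ T}).indicator (fun _ => (1:ℝ)) T)
      have h3 := e2 (fun D => ({T : Finset (Eu d) | ∃ x ∈ D, x ∈ T}).indicator (fun _ => (1:ℝ)) T)
      simp only [hv] at h1
      rw [h2, h3] at h1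
      refine h1.trans (le_of_eq ?_)
      congr 1
      · -- sum over T
        rw [← Finset.sum_subset hT]
        · apply Finset.sum_congr rfl
          intro x hx
          rw [← Finset.sum_subset hT]
          · apply Finset.sum_congr rfl
            intro y hy
            have : T ∈ {T : Finset (Eu d) | x ∈ T ∧ y ∈ T} := ⟨hx, hy⟩
            rw [indicator_of_mem this, mul_one]
          · intro y _ hy
            have : T ∉ {T : Finset (Eu d) | x ∈ T ∧ y ∈ T} := fun h => hy h.2
            rw [indicator_of_notMem this, mul_zero]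
        · intro x _ hx
          apply Finset.sum_eq_zero
          intro y _
          have : T ∉ {T : Finset (Eu d) | x ∈ T ∧ y ∈ T} := fun h => hx h.1
          rw [indicator_of_notMem this, mul_zero]
      · apply Finset.sum_congr rfl
        intro D _
        by_cases hDT : T ∈ {T : Finset (Eu d) | ∃ x ∈ D, x ∈ T}
        · rw [indicator_of_mem hDT, indicator_of_mem hDT, mul_one]
        · rw [indicator_of_notMem hDT, indicator_of_notMem hDT, mul_zero])
  obtain ⟨p, hp0, hp1, hpe, hpi⟩ := key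
  refine ⟨fun T => if h : T ∈ F.powerset then p ⟨T, h⟩ else 0, ?_, ?_, ?_, ?_⟩
  · intro T
    beta_reduce
    split_ifs with hT
    · exact hp0 _
    · exact le_rfl
  · rw [← hp1, ← Finset.sum_coe_sort F.powerset]
    apply Finset.sum_congr rfl
    intro T _
    beta_reduce
    rw [dif_pos T.2]
  · intro x hx y hy
    have h1 := hpe (Sum.inl (⟨x, hx⟩, ⟨y, hy⟩)) (by simp)
    simp only [ht] at h1
    rw [← h1, ← Finset.sum_coe_sort F.powerset]
    apply Finset.sum_congr rfl
    intro T _
    beta_reduce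
    rw [dif_pos T.2]
  · intro D hD
    have h1 := hpi (Sum.inr ⟨D, Finset.mem_powerset.mpr hD⟩) ⟨_, rfl⟩
    simp only [ht] at h1
    refine le_trans (le_of_eq ?_) h1
    rw [← Finset.sum_coe_sort F.powerset]
    apply Finset.sum_congr rfl
    intro T _
    beta_reduce
    rw [dif_pos T.2]


/-- a finite set as a closed set -/
def finClosed (T : Finset (Eu d)) : ClosedSubset d := ⟨(T : Set (Eu d)), T.finite_toSet.isClosed⟩

/-- the random finite set with given weights -/
def finLaw (p : Finset (Eu d) → ℝ) (F : Finset (Eu d)) : Measure (ClosedSubset d) :=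
  ∑ T ∈ F.powerset, ENNReal.ofReal (p T) • Measure.dirac (finClosed T)

lemma finLaw_prob (p : Finset (Eu d) → ℝ) (F : Finset (Eu d)) (hp : ∀ T, 0 ≤ p T)
    (h1 : ∑ T ∈ F.powerset, p T = 1) : IsProbabilityMeasure (finLaw p F) := by
  constructor
  unfold finLaw
  simp only [Measure.coe_finsetSum, Finset.sum_apply, Measure.smul_apply, measure_univ, smul_eq_mul,
    mul_one]
  rw [← ENNReal.ofReal_sum_of_nonneg (fun T _ => hp T), h1, ENNReal.ofReal_one]

lemma integral_finLaw (p : Finset (Eu d) → ℝ) (F : Finset (Eu d)) (hp : ∀ T, 0 ≤ p T)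
    (g : BoundedContinuousFunction (ClosedSubset d) ℝ) :
    ∫ G, g G ∂(finLaw p F) = ∑ T ∈ F.powerset, p T * g (finClosed T) := by
  unfold finLaw
  rw [integral_finsetSum_measure]
  · apply Finset.sum_congr rfl
    intro T _
    rw [integral_smul_measure, integral_dirac, ENNReal.toReal_ofReal (hp T), smul_eq_mul]
  · intro T _
    apply Integrable.smul_measure _ ENNReal.ofReal_ne_top
    exact g.integrable _

/-- The two bounds that characterise the two point function through tents. -/
structure GoodMeas (S : Eu d → ℝ) (μ : Measure (ClosedSubset d)) : Prop where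
  lower : ∀ (r : ℝ) (hr : 0 < r) (x y : Eu d), S (x - y) ≤ ∫ G, tt hr x y G ∂μ
  upper : ∀ ε : ℝ, 0 < ε → ∃ r0 : ℝ, 0 < r0 ∧ ∀ (r : ℝ) (hr : 0 < r), r < r0 → ∀ x y : Eu d,
    ∫ G, tt hr x y G ∂μ ≤ S (x - y) + ε

lemma finite_bounds (S : Eu d → ℝ) (w : ℝ → ℝ) (hw : Tendsto w (𝓝[>] 0) (𝓝 0)) :
    ∀ ε : ℝ, 0 < ε → ∃ r0 : ℝ, 0 < r0 ∧ ∀ (F : Finset (Eu d)) (p : Finset (Eu d) → ℝ), (∀ T, 0 ≤ p T) →
      (∀ x ∈ F, ∀ y ∈ F, ∑ T ∈ F.powerset,
        p T * (({T : Finset (Eu d) | x ∈ T ∧ y ∈ T}).indicator (fun _ => (1:ℝ)) T) = S (x - y)) →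
      (∀ D ⊆ F, ∑ T ∈ F.powerset,
        p T * (({T : Finset (Eu d) | ∃ x ∈ D, x ∈ T}).indicator (fun _ => (1:ℝ)) T)
          ≤ S 0 + w (Metric.diam (D : Set (Eu d)))) →
      ∀ (r : ℝ) (hr : 0 < r), r < r0 → ∀ x ∈ F, ∀ y ∈ F,
        ∑ T ∈ F.powerset, p T * tt hr x y (finClosed T) ≤ S (x - y) + ε := by
  classical
  intro ε hε
  have h1 : ∀ᶠ s in 𝓝[>] (0:ℝ), w s < ε / 2 := hw.eventually (gt_mem_nhds (half_pos hε))
  rw [eventually_nhdsWithin_iff, Metric.eventually_nhds_iff] at h1
  obtain ⟨δ, hδ, hwδ⟩ := h1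
  refine ⟨δ / 2, half_pos hδ, ?_⟩
  intro F p hp hpe hpi r hr hrδ x hx y hy
  -- near sets
  have near : ∀ z ∈ F, ∑ T ∈ F.powerset,
      p T * (({T : Finset (Eu d) | ∃ u ∈ F.filter (fun u => dist u z < r), u ∈ T}).indicator (fun _ => (1:ℝ)) T)
        ≤ S 0 + ε / 2 := by
    intro z hz
    set D := F.filter (fun u => dist u z < r) with hD
    have hzD : z ∈ D := by simp [hD, hz, hr]
    by_cases hdiam : Metric.diam (D : Set (Eu d)) = 0
    · -- then D is a singleton
      have hDz : ∀ u ∈ D, u = z := by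
        intro u hu
        have h2 : dist u z ≤ Metric.diam (D : Set (Eu d)) :=
          Metric.dist_le_diam_of_mem D.finite_toSet.isBounded hu hzD
        rw [hdiam] at h2
        exact dist_le_zero.mp h2
      have h3 := hpe z hz z hz
      rw [sub_self] at h3
      have h4 : ∀ T : Finset (Eu d), ({T : Finset (Eu d) | ∃ u ∈ D, u ∈ T}).indicator (fun _ => (1:ℝ)) T
          = ({T : Finset (Eu d) | z ∈ T ∧ z ∈ T}).indicator (fun _ => (1:ℝ)) T := by
        intro T
        congr 1
        ext T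
        simp only [mem_ofPred_eq]
        constructor
        · rintro ⟨u, hu, huT⟩
          rw [hDz u hu] at huT; exact ⟨huT, huT⟩
        · rintro ⟨h, _⟩; exact ⟨z, hzD, h⟩
      simp_rw [h4]
      rw [h3]; linarith
    · have hpos : 0 < Metric.diam (D : Set (Eu d)) := lt_of_le_of_ne Metric.diam_nonneg (Ne.symm hdiam)
      have hle : Metric.diam (D : Set (Eu d)) ≤ 2 * r := by
        apply Metric.diam_le_of_forall_dist_le (by positivity)
        intro u hu v hv
        have hu' : dist u z < r := (Finset.mem_filter.mp hu).2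
        have hv' : dist v z < r := (Finset.mem_filter.mp hv).2
        calc dist u v ≤ dist u z + dist v z := dist_triangle_right _ _ _
          _ ≤ 2 * r := by linarith
      have h5 : w (Metric.diam (D : Set (Eu d))) < ε / 2 := by
        apply hwδ
        · rw [Real.dist_eq, sub_zero, abs_of_pos hpos]; linarith
        · exact hpos
      exact (hpi D (Finset.filter_subset _ _)).trans (by linarith)
  have hx0 := hpe x hx x hx
  have hy0 := hpe y hy y hy
  rw [sub_self] at hx0 hy0
  have hterm : ∀ T ∈ F.powerset, p T * tt hr x y (finClosed T)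
      ≤ p T * (({T : Finset (Eu d) | x ∈ T ∧ y ∈ T}).indicator (fun _ => (1:ℝ)) T)
        + (p T * (({T : Finset (Eu d) | ∃ u ∈ F.filter (fun u => dist u x < r), u ∈ T}).indicator (fun _ => (1:ℝ)) T)
          - p T * (({T : Finset (Eu d) | x ∈ T ∧ x ∈ T}).indicator (fun _ => (1:ℝ)) T))
        + (p T * (({T : Finset (Eu d) | ∃ u ∈ F.filter (fun u => dist u y < r), u ∈ T}).indicator (fun _ => (1:ℝ)) T)
          - p T * (({T : Finset (Eu d) | y ∈ T ∧ y ∈ T}).indicator (fun _ => (1:ℝ)) T)) := by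
    intro T hT
    rw [Finset.mem_powerset] at hT
    rw [← mul_sub, ← mul_sub, ← mul_add, ← mul_add]
    apply mul_le_mul_of_nonneg_left _ (hp T)
    rw [tt_apply]
    have tle : ∀ z, tent r z (finClosed T)
        ≤ ({T : Finset (Eu d) | ∃ u ∈ F.filter (fun u => dist u z < r), u ∈ T}).indicator (fun _ => (1:ℝ)) T := by
      intro z
      by_cases h : T ∈ {T : Finset (Eu d) | ∃ u ∈ F.filter (fun u => dist u z < r), u ∈ T}
      · rw [indicator_of_mem h]; exact tent_le_one _ _ _
      · rw [indicator_of_notMem h]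
        apply le_of_eq
        apply tent_of_miss hr
        intro u hu
        by_contra hlt
        push Not at hlt
        exact h ⟨u, Finset.mem_filter.mpr ⟨hT hu, hlt⟩, hu⟩
    have mono : ∀ z ∈ F, ({T : Finset (Eu d) | z ∈ T ∧ z ∈ T}).indicator (fun _ => (1:ℝ)) T
        ≤ ({T : Finset (Eu d) | ∃ u ∈ F.filter (fun u => dist u z < r), u ∈ T}).indicator (fun _ => (1:ℝ)) T := by
      intro z hz
      apply indicator_le_indicator_of_subset _ (fun _ => zero_le_one)
      rintro T' ⟨h, _⟩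
      exact ⟨z, Finset.mem_filter.mpr ⟨hz, by simpa using hr⟩, h⟩
    have i01 : ∀ s : Set (Finset (Eu d)), 0 ≤ s.indicator (fun _ => (1:ℝ)) T ∧ s.indicator (fun _ => (1:ℝ)) T ≤ 1 := by
      intro s
      by_cases h : T ∈ s
      · rw [indicator_of_mem h]; norm_num
      · rw [indicator_of_notMem h]; norm_num
    have hprod : ({T : Finset (Eu d) | x ∈ T ∧ y ∈ T}).indicator (fun _ => (1:ℝ)) T
        = ({T : Finset (Eu d) | x ∈ T ∧ x ∈ T}).indicator (fun _ => (1:ℝ)) T *
          ({T : Finset (Eu d) | y ∈ T ∧ y ∈ T}).indicator (fun _ => (1:ℝ)) T := by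
      by_cases h1 : x ∈ T <;> by_cases h2 : y ∈ T
      · rw [indicator_of_mem (show T ∈ {T : Finset (Eu d) | x ∈ T ∧ y ∈ T} from ⟨h1, h2⟩),
          indicator_of_mem (show T ∈ {T : Finset (Eu d) | x ∈ T ∧ x ∈ T} from ⟨h1, h1⟩),
          indicator_of_mem (show T ∈ {T : Finset (Eu d) | y ∈ T ∧ y ∈ T} from ⟨h2, h2⟩)]; norm_num
      · rw [indicator_of_notMem (show T ∉ {T : Finset (Eu d) | x ∈ T ∧ y ∈ T} from fun h => h2 h.2),
          indicator_of_notMem (show T ∉ {T : Finset (Eu d) | y ∈ T ∧ y ∈ T} from fun h => h2 h.2)]; norm_num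
      · rw [indicator_of_notMem (show T ∉ {T : Finset (Eu d) | x ∈ T ∧ y ∈ T} from fun h => h1 h.1),
          indicator_of_notMem (show T ∉ {T : Finset (Eu d) | x ∈ T ∧ x ∈ T} from fun h => h1 h.1)]; norm_num
      · rw [indicator_of_notMem (show T ∉ {T : Finset (Eu d) | x ∈ T ∧ y ∈ T} from fun h => h1 h.1),
          indicator_of_notMem (show T ∉ {T : Finset (Eu d) | x ∈ T ∧ x ∈ T} from fun h => h1 h.1)]; norm_num
    have hA := tle x
    have hB := tle y
    have hα := mono x hx
    have hβ := mono y hy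
    have h01A := i01 {T : Finset (Eu d) | ∃ u ∈ F.filter (fun u => dist u x < r), u ∈ T}
    have h01B := i01 {T : Finset (Eu d) | ∃ u ∈ F.filter (fun u => dist u y < r), u ∈ T}
    have h01α := i01 {T : Finset (Eu d) | x ∈ T ∧ x ∈ T}
    have h01β := i01 {T : Finset (Eu d) | y ∈ T ∧ y ∈ T}
    have hx1 := tent_nonneg r x (finClosed T)
    have hy1 := tent_nonneg r y (finClosed T)
    rw [hprod]
    set A := ({T : Finset (Eu d) | ∃ u ∈ F.filter (fun u => dist u x < r), u ∈ T}).indicator (fun _ => (1:ℝ)) T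
    set B := ({T : Finset (Eu d) | ∃ u ∈ F.filter (fun u => dist u y < r), u ∈ T}).indicator (fun _ => (1:ℝ)) T
    set α := ({T : Finset (Eu d) | x ∈ T ∧ x ∈ T}).indicator (fun _ => (1:ℝ)) T
    set β := ({T : Finset (Eu d) | y ∈ T ∧ y ∈ T}).indicator (fun _ => (1:ℝ)) T
    calc tent r x (finClosed T) * tent r y (finClosed T) ≤ A * B :=
          mul_le_mul hA hB hy1 h01A.1
      _ ≤ α * β + (A - α) + (B - β) := by
        nlinarith [mul_nonneg (sub_nonneg.mpr h01A.2) (sub_nonneg.mpr hβ),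
          mul_nonneg (sub_nonneg.mpr h01β.2) (sub_nonneg.mpr hα)]
  calc ∑ T ∈ F.powerset, p T * tt hr x y (finClosed T) ≤ _ := Finset.sum_le_sum hterm
    _ ≤ S (x - y) + ε := by
      rw [Finset.sum_add_distrib, Finset.sum_add_distrib, Finset.sum_sub_distrib, Finset.sum_sub_distrib,
        hpe x hx y hy, hx0, hy0]
      have n1 := near x hx
      have n2 := near y hy
      linarith

/-- Step 2: a (not necessarily stationary) random closed set -/
lemma exists_good (S : Eu d → ℝ) (w : ℝ → ℝ) (hw : Tendsto w (𝓝[>] 0) (𝓝 0)) (h : FinIneq S w) :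
    ∃ μ : Measure (ClosedSubset d), IsProbabilityMeasure μ ∧ GoodMeas S μ := by
  classical
  choose p hp0 hp1 hpe hpi using exists_weights S w h
  set M : Finset (Eu d) → ProbabilityMeasure (ClosedSubset d) := fun F =>
    ⟨finLaw (p F) F, finLaw_prob (p F) F (hp0 F) (hp1 F)⟩ with hM
  set 𝒰 : Ultrafilter (Finset (Eu d)) := Ultrafilter.of atTop with h𝒰
  have hle : (𝒰 : Filter (Finset (Eu d))) ≤ atTop := Ultrafilter.of_le _
  obtain ⟨μ, _, hμ⟩ := isCompact_univ.ultrafilter_le_nhds (𝒰.map M) (by simp)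
  have hlim : Tendsto M 𝒰 (𝓝 μ) := hμ
  rw [ProbabilityMeasure.tendsto_iff_forall_integral_tendsto] at hlim
  have hint : ∀ (F : Finset (Eu d)) (g : BoundedContinuousFunction (ClosedSubset d) ℝ),
      ∫ G, g G ∂(M F : Measure (ClosedSubset d)) = ∑ T ∈ F.powerset, p F T * g (finClosed T) := by
    intro F g
    exact integral_finLaw (p F) F (hp0 F) g
  have hev : ∀ x y : Eu d, ∀ᶠ F in (𝒰 : Filter (Finset (Eu d))), x ∈ F ∧ y ∈ F := by
    intro x y
    apply hle
    filter_upwards [eventually_ge_atTop ({x, y} : Finset (Eu d))] with F hF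
    exact ⟨hF (by simp), hF (by simp)⟩
  refine ⟨μ, inferInstance, ?_, ?_⟩
  · intro r hr x y
    apply ge_of_tendsto (hlim (tt hr x y))
    filter_upwards [hev x y] with F ⟨hx, hy⟩
    rw [hint, ← hpe F x hx y hy]
    apply Finset.sum_le_sum
    intro T _
    apply mul_le_mul_of_nonneg_left _ (hp0 F T)
    by_cases hxy : T ∈ {T : Finset (Eu d) | x ∈ T ∧ y ∈ T}
    · rw [indicator_of_mem hxy, tt_apply, tent_of_mem _ _ _ (show x ∈ (finClosed T).carrier from hxy.1),
        tent_of_mem _ _ _ (show y ∈ (finClosed T).carrier from hxy.2), mul_one]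
    · rw [indicator_of_notMem hxy, tt_apply]
      exact mul_nonneg (tent_nonneg _ _ _) (tent_nonneg _ _ _)
  · intro ε hε
    obtain ⟨r0, hr0, hb⟩ := finite_bounds S w hw ε hε
    refine ⟨r0, hr0, fun r hr hrr x y => ?_⟩
    apply le_of_tendsto (hlim (tt hr x y))
    filter_upwards [hev x y] with F ⟨hx, hy⟩
    rw [hint]
    exact hb F (p F) (hp0 F) (hpe F) (hpi F) r hr hrr x hx y hy

end

end Pool.Agent.LibRCS
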