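import Pool.Agent.LibRCS.NoClosed

open MeasureTheory AddCircle Filter Set
open scoped Topology ENNReal ComplexConjugate symmDiff

namespace Pool.Agent.LibRCS

noncomputable section

/-- the first coordinate, in the circle -/
def pr {d : ℕ} (hd : 0 < d) (x : EuclideanSpace ℝ (Fin d)) : T1 := ((x ⟨0, hd⟩ : ℝ) : T1)

lemma continuous_coord {d : ℕ} (hd : 0 < d) :
    Continuous (fun x : EuclideanSpace ℝ (Fin d) => x ⟨0, hd⟩) := by fun_prop

lemma continuous_pr {d : ℕ} (hd : 0 < d) : Continuous (pr hd) :=
  (AddCircle.continuous_mk' (1:ℝ)).comp (continuous_coord hd)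

lemma pr_add {d : ℕ} (hd : 0 < d) (x y : EuclideanSpace ℝ (Fin d)) :
    pr hd (x + y) = pr hd x + pr hd y := by
  simp [pr]

lemma pr_sub {d : ℕ} (hd : 0 < d) (x y : EuclideanSpace ℝ (Fin d)) :
    pr hd (x - y) = pr hd x - pr hd y := by
  simp [pr]

lemma isOpenMap_coord {d : ℕ} (hd : 0 < d) :
    IsOpenMap (fun x : EuclideanSpace ℝ (Fin d) => x ⟨0, hd⟩) := by
  have h1 : IsOpenMap (fun x : Fin d → ℝ => x ⟨0, hd⟩) := isOpenMap_eval _
  have h2 : IsOpenMap (fun x : EuclideanSpace ℝ (Fin d) => (WithLp.ofLp x : Fin d → ℝ)) :=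
    (PiLp.homeomorph 2 (fun _ : Fin d => ℝ)).isOpenMap
  exact h1.comp h2

lemma isOpenMap_pr {d : ℕ} (hd : 0 < d) : IsOpenMap (pr hd) :=
  QuotientAddGroup.isOpenMap_coe.comp (isOpenMap_coord hd)

/-- the random closed set attached to a closed subset of the circle -/
def closedOf {d : ℕ} (hd : 0 < d) (C : Set T1) (hC : IsClosed C) (z : T1) : ClosedSubset d :=
  ⟨{x | z + pr hd x ∈ C}, hC.preimage (continuous_const.add (continuous_pr hd))⟩

lemma continuous_closedOf {d : ℕ} (hd : 0 < d) (C : Set T1) (hC : IsClosed C) :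
    Continuous (closedOf hd C hC) := by
  apply continuous_generateFrom_iff.mpr
  rintro s (⟨K, hK, rfl⟩ | ⟨U, hU, rfl⟩)
  · have h1 : closedOf hd C hC ⁻¹' {F | F.carrier ∩ K = ∅}
        = (Prod.fst '' ({q : T1 × EuclideanSpace ℝ (Fin d) | q.1 + pr hd q.2 ∈ C} ∩ univ ×ˢ K))ᶜ := by
      ext z
      simp only [mem_preimage, mem_ofPred_eq, mem_compl_iff, mem_image, mem_inter_iff, mem_prod,
        mem_univ, true_and, Prod.exists, exists_and_right, exists_eq_right, closedOf,
        Set.eq_empty_iff_forall_notMem]
      push Not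
      rfl
    rw [h1]
    have hcl : IsClosed ({q : T1 × EuclideanSpace ℝ (Fin d) | q.1 + pr hd q.2 ∈ C}) :=
      hC.preimage (continuous_fst.add ((continuous_pr hd).comp continuous_snd))
    have hcp : IsCompact (univ ×ˢ K : Set (T1 × EuclideanSpace ℝ (Fin d))) :=
      isCompact_univ.prod hK
    exact ((hcp.inter_left hcl).image continuous_fst).isClosed.isOpen_compl
  · have h1 : closedOf hd C hC ⁻¹' {F | (F.carrier ∩ U).Nonempty}
        = ⋃ c ∈ C, (fun t => c - t) '' (pr hd '' U) := by
      ext z
      simp only [mem_preimage, mem_ofPred_eq, closedOf, mem_iUnion, mem_image, exists_exists_and_eq_and]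
      constructor
      · rintro ⟨x, hx, hxU⟩
        exact ⟨z + pr hd x, hx, x, hxU, by abel⟩
      · rintro ⟨c, hc, x, hxU, rfl⟩
        exact ⟨x, by simpa using hc, hxU⟩
    rw [h1]
    apply isOpen_biUnion
    intro c _
    exact (Homeomorph.subLeft c).isOpenMap _ (isOpenMap_pr hd _ hU)

/-- covariances of stationary random closed sets from closed subsets of the circle -/
theorem closed_autoc {d : ℕ} (hd : 0 < d) (C : Set T1) (hC : IsClosed C) :
    IsStationaryRCSCovariance (fun x : EuclideanSpace ℝ (Fin d) => autoc C (pr hd x)) := by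
  have hm : Measurable (closedOf hd C hC) := (continuous_closedOf hd C hC).measurable
  refine ⟨mT.map (closedOf hd C hC), Measure.isProbabilityMeasure_map hm.aemeasurable, ?_, ?_⟩
  · intro a
    have htr : Measurable (ClosedSubset.translate (d := d) a) := by
      apply Continuous.measurable
      apply continuous_generateFrom_iff.mpr
      rintro s (⟨K, hK, rfl⟩ | ⟨U, hU, rfl⟩)
      · have : ClosedSubset.translate a ⁻¹' {F | F.carrier ∩ K = ∅}
            = {F | F.carrier ∩ ((fun x => x - a) '' K) = ∅} := by
          ext F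
          simp only [mem_preimage, mem_ofPred_eq, ClosedSubset.translate, Set.eq_empty_iff_forall_notMem,
            mem_inter_iff, mem_image, not_and, not_exists]
          constructor
          · rintro h x hx y hy rfl
            exact h y hx hy
          · intro h x hx hxK
            exact h (x - a) hx x hxK rfl
        rw [this]
        exact isOpen_miss _ (hK.image (continuous_id.sub continuous_const))
      · have : ClosedSubset.translate a ⁻¹' {F | (F.carrier ∩ U).Nonempty}
            = {F | (F.carrier ∩ ((fun x => x + a) ⁻¹' U)).Nonempty} := by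
          ext F
          simp only [mem_preimage, mem_ofPred_eq, ClosedSubset.translate]
          constructor
          · rintro ⟨x, hx, hxU⟩
            exact ⟨x - a, hx, by simpa using hxU⟩
          · rintro ⟨x, hx, hxU⟩
            exact ⟨x + a, by simpa using hx, hxU⟩
        rw [this]
        exact isOpen_hit _ (hU.preimage (continuous_id.add continuous_const))
    rw [Measure.map_map htr hm]
    have h1 : ClosedSubset.translate a ∘ closedOf hd C hC
        = closedOf hd C hC ∘ (fun z => z - pr hd a) := by
      funext z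
      simp only [Function.comp, ClosedSubset.translate, closedOf, ClosedSubset.mk.injEq]
      ext x
      simp only [mem_ofPred_eq]
      rw [pr_sub, show z + (pr hd x - pr hd a) = z - pr hd a + pr hd x by abel]
    have h2 := Measure.map_map (μ := mT) hm (measurePreserving_sub_right mT (pr hd a)).measurable
    rw [h1, ← h2, (measurePreserving_sub_right mT (pr hd a)).map_eq]
  · intro x y
    have hms : MeasurableSet {F : ClosedSubset d | x ∈ F.carrier ∧ y ∈ F.carrier} :=
      (measurableSet_mem x).inter (measurableSet_mem y)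
    rw [measureReal_def, Measure.map_apply hm hms, ← measureReal_def]
    simp only [pr_sub]
    rw [← shift_two_point C hC.measurableSet]
    rfl

lemma autoc_sub_le (E C : Set T1) (hE : MeasurableSet E) (hC : MeasurableSet C) (hCE : C ⊆ E)
    (h : T1) : |autoc E h - autoc C h| ≤ 2 * mT.real (E \ C) := by
  unfold autoc
  have h1 : mT.real {z | z + h ∈ C ∧ z ∈ C} ≤ mT.real {z | z + h ∈ E ∧ z ∈ E} :=
    measureReal_mono (fun z hz => ⟨hCE hz.1, hCE hz.2⟩) (measure_ne_top _ _)
  have h2 : mT.real {z | z + h ∈ E ∧ z ∈ E}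
      ≤ mT.real {z | z + h ∈ C ∧ z ∈ C} + (mT.real ((fun z => z + h) ⁻¹' (E \ C)) + mT.real (E \ C)) := by
    calc mT.real {z | z + h ∈ E ∧ z ∈ E}
        ≤ mT.real ({z | z + h ∈ C ∧ z ∈ C} ∪ ((fun z => z + h) ⁻¹' (E \ C) ∪ (E \ C))) := by
          apply measureReal_mono _ (measure_ne_top _ _)
          intro z hz
          by_cases hz1 : z + h ∈ C
          · by_cases hz2 : z ∈ C
            · left; exact ⟨hz1, hz2⟩
            · right; right; exact ⟨hz.2, hz2⟩
          · right; left; exact ⟨hz.1, hz1⟩
      _ ≤ _ := (measureReal_union_le _ _).trans (by gcongr; exact measureReal_union_le _ _)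
  have h3 : mT.real ((fun z => z + h) ⁻¹' (E \ C)) = mT.real (E \ C) :=
    (measurePreserving_add_right mT h).measureReal_preimage (hE.diff hC).nullMeasurableSet
  rw [abs_of_nonneg (by linarith)]
  linarith

end

end Pool.Agent.LibRCS
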