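import Pool.Agent.LibRCS.Avg

open Set MeasureTheory Filter
open scoped Topology ENNReal

namespace Pool.Agent.LibRCS.Crit

open Pool.Agent.LibRCS

open Classical in
/-- The linear inequalities with modulus `w`: for every finite set `F` of points, all real
coefficients `a x y`, all nonnegative coefficients `b D` attached to the subsets `D` of `F`, and
every constant `c`: if for every `T ⊆ F` the sum of `a x y` over `x, y ∈ T` plus the sum of `b D`
over the `D` that meet `T` is at least `c`, then the same expression with `S (x - y)` in place of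
the event `x, y ∈ T` and `S 0 + w (diam D)` in place of the event that `D` meets `T` is at least
`c`. -/
def FiniteInequalities {d : ℕ} (S : EuclideanSpace ℝ (Fin d) → ℝ) (w : ℝ → ℝ) : Prop :=
  ∀ (F : Finset (EuclideanSpace ℝ (Fin d)))
    (a : EuclideanSpace ℝ (Fin d) → EuclideanSpace ℝ (Fin d) → ℝ)
    (b : Finset (EuclideanSpace ℝ (Fin d)) → ℝ) (c : ℝ),
    (∀ D, 0 ≤ b D) →
    (∀ T ⊆ F, c ≤ ∑ x ∈ T, ∑ y ∈ T, a x y +
      ∑ D ∈ F.powerset, if (D ∩ T).Nonempty then b D else 0) →
    c ≤ ∑ x ∈ F, ∑ y ∈ F, a x y * S (x - y) +
      ∑ D ∈ F.powerset, b D * (S 0 + w (Metric.diam (D : Set (EuclideanSpace ℝ (Fin d)))))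

/-- A function `S` on `ℝ^d` is the covariance of a stationary random closed set if and only if
it satisfies all the linear inequalities of `FiniteInequalities` with some modulus `w` tending to
`0` at `0`. -/
theorem criterion (d : ℕ) (S : EuclideanSpace ℝ (Fin d) → ℝ) :
    IsStationaryRCSCovariance S ↔
      ∃ w : ℝ → ℝ, Tendsto w (𝓝[>] 0) (𝓝 0) ∧ FiniteInequalities S w := by
  classical
  have hiff : ∀ w : ℝ → ℝ, FiniteInequalities S w ↔ FinIneq S w := by
    intro w
    unfold FiniteInequalities FinIneq
    have e : ∀ (F : Finset (Eu d)) (b : Finset (Eu d) → ℝ) (T : Finset (Eu d)),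
        ∑ D ∈ F.powerset, (if (D ∩ T).Nonempty then b D else 0)
          = ∑ D ∈ F.powerset, (({T : Finset (Eu d) | ∃ x ∈ D, x ∈ T}).indicator (fun _ => b D) T) := by
      intro F b T
      apply Finset.sum_congr rfl
      intro D _
      by_cases h : ∃ x ∈ D, x ∈ T
      · have h1 : (D ∩ T).Nonempty := by
          obtain ⟨x, hx, hxT⟩ := h
          exact ⟨x, Finset.mem_inter.mpr ⟨hx, hxT⟩⟩
        rw [if_pos h1, indicator_of_mem (show T ∈ {T : Finset (Eu d) | ∃ x ∈ D, x ∈ T} from h)]
      · have h1 : ¬ (D ∩ T).Nonempty := by
          rintro ⟨x, hx⟩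
          exact h ⟨x, (Finset.mem_inter.mp hx).1, (Finset.mem_inter.mp hx).2⟩
        rw [if_neg h1, indicator_of_notMem (show T ∉ {T : Finset (Eu d) | ∃ x ∈ D, x ∈ T} from h)]
    constructor
    · intro h F a b c hb hT
      exact h F a b c hb (fun T hTF => by
        have := hT T hTF
        rw [← e] at this
        exact this)
    · intro h F a b c hb hT
      exact h F a b c hb (fun T hTF => by
        have := hT T hTF
        rw [← e]
        exact this)
  constructor
  · rintro ⟨μ, hμ, hst, htp⟩
    set H : Eu d → ℝ → Set (ClosedSubset d) := fun x r => {G | (G.carrier ∩ Metric.closedBall x r).Nonempty}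
      with hH
    have hHm : ∀ x r, MeasurableSet (H x r) := fun x r => measurableSet_hit_compact _ (isCompact_closedBall _ _)
    have h0 : μ.real {G : ClosedSubset d | (0 : Eu d) ∈ G.carrier} = S 0 := by
      have := htp 0 0
      simpa using this
    refine ⟨fun r => μ.real (H 0 r) - S 0, ?_, ?_⟩
    · have h1 := tendsto_measure_biInter_gt (μ := μ) (s := fun r => H 0 r) (a := (0:ℝ))
        (fun r _ => (hHm 0 r).nullMeasurableSet)
        (fun i j _ hij G hG => by
          obtain ⟨x, hx, hxb⟩ := hG
          exact ⟨x, hx, Metric.closedBall_subset_closedBall hij hxb⟩)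
        ⟨1, one_pos, measure_ne_top _ _⟩
      have h2 : (⋂ r, ⋂ (_ : r > (0:ℝ)), H (0 : Eu d) r) = {G : ClosedSubset d | (0 : Eu d) ∈ G.carrier} := by
        ext G
        simp only [mem_iInter, mem_ofPred_eq, hH]
        constructor
        · intro h
          by_contra hn
          obtain ⟨ε, hε, hb⟩ := Metric.isOpen_iff.mp G.isClosed.isOpen_compl 0 hn
          obtain ⟨x, hx, hxb⟩ := h (ε / 2) (half_pos hε)
          exact hb (Metric.closedBall_subset_ball (by linarith) hxb) hx
        · intro h r hr
          exact ⟨0, h, Metric.mem_closedBall_self hr.le⟩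
      rw [h2] at h1
      have h3 : Tendsto (fun r => μ.real (H 0 r)) (𝓝[>] 0) (𝓝 (S 0)) := by
        rw [← h0]
        exact (ENNReal.tendsto_toReal (measure_ne_top _ _)).comp h1
      have h4 := h3.sub_const (S 0)
      simpa using h4
    · rw [hiff]
      intro F a b c hb hT
      -- stationarity of the hitting probabilities of balls
      have hball : ∀ (x : Eu d) (r : ℝ), μ.real (H x r) = μ.real (H 0 r) := by
        intro x r
        have h1 : μ (H x r) = μ (H 0 r) := by
          conv_lhs => rw [← hst x]
          rw [Measure.map_apply (continuous_translate_right x).measurable (hHm x r)]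
          congr 1
          ext G
          simp only [mem_preimage, hH, mem_ofPred_eq, ClosedSubset.translate]
          constructor
          · rintro ⟨y, hy, hyb⟩
            refine ⟨y - x, hy, ?_⟩
            rw [Metric.mem_closedBall, dist_zero_right, ← dist_eq_norm]
            exact hyb
          · rintro ⟨y, hy, hyb⟩
            refine ⟨y + x, ?_, ?_⟩
            · simp only [mem_ofPred_eq]; simpa using hy
            · rw [Metric.mem_closedBall, dist_eq_norm]
              rw [Metric.mem_closedBall, dist_zero_right] at hyb
              simpa using hyb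
        rw [measureReal_def, measureReal_def, h1]
      have hDm : ∀ D : Finset (Eu d), MeasurableSet {G : ClosedSubset d | ∃ x ∈ D, x ∈ G.carrier} := by
        intro D
        have : {G : ClosedSubset d | ∃ x ∈ D, x ∈ G.carrier} = ⋃ x ∈ D, {G | x ∈ G.carrier} := by
          ext G; simp
        rw [this]
        exact Finset.measurableSet_biUnion _ (fun x _ => Pool.Agent.LibRCS.measurableSet_mem x)
      have hD : ∀ D : Finset (Eu d), μ.real {G : ClosedSubset d | ∃ x ∈ D, x ∈ G.carrier}
          ≤ μ.real (H 0 (Metric.diam (D : Set (Eu d)))) := by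
        intro D
        by_cases hne : D.Nonempty
        · obtain ⟨x0, hx0⟩ := hne
          rw [← hball x0]
          apply measureReal_mono _ (measure_ne_top _ _)
          rintro G ⟨x, hxD, hxG⟩
          refine ⟨x, hxG, ?_⟩
          exact Metric.dist_le_diam_of_mem D.finite_toSet.isBounded hxD hx0
        · rw [Finset.not_nonempty_iff_eq_empty] at hne
          subst hne
          simp
      -- pointwise inequality
      set f : ClosedSubset d → ℝ := fun G => ∑ x ∈ F, ∑ y ∈ F, a x y *
          (({G : ClosedSubset d | x ∈ G.carrier ∧ y ∈ G.carrier}).indicator (fun _ => (1:ℝ)) G) +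
          ∑ D ∈ F.powerset, b D * (({G : ClosedSubset d | ∃ x ∈ D, x ∈ G.carrier}).indicator (fun _ => (1:ℝ)) G)
        with hf
      have hpt : ∀ G, c ≤ f G := by
        intro G
        set T := F.filter (fun x => x ∈ G.carrier) with hTdef
        have h1 := hT T (Finset.filter_subset _ _)
        refine h1.trans (le_of_eq ?_)
        simp only [hf]
        congr 1
        · rw [hTdef, Finset.sum_filter]
          apply Finset.sum_congr rfl
          intro x _
          by_cases hx : x ∈ G.carrier
          · rw [if_pos hx, Finset.sum_filter]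
            apply Finset.sum_congr rfl
            intro y _
            by_cases hy : y ∈ G.carrier
            · rw [if_pos hy, indicator_of_mem (show G ∈ {G : ClosedSubset d | x ∈ G.carrier ∧ y ∈ G.carrier}
                from ⟨hx, hy⟩), mul_one]
            · rw [if_neg hy, indicator_of_notMem (show G ∉ {G : ClosedSubset d | x ∈ G.carrier ∧ y ∈ G.carrier}
                from fun h => hy h.2), mul_zero]
          · rw [if_neg hx]
            symm
            apply Finset.sum_eq_zero
            intro y _
            rw [indicator_of_notMem (show G ∉ {G : ClosedSubset d | x ∈ G.carrier ∧ y ∈ G.carrier}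
                from fun h => hx h.1), mul_zero]
        · apply Finset.sum_congr rfl
          intro D hDF
          rw [Finset.mem_powerset] at hDF
          by_cases h : ∃ x ∈ D, x ∈ G.carrier
          · have h2 : T ∈ {T : Finset (Eu d) | ∃ x ∈ D, x ∈ T} := by
              obtain ⟨x, hx, hxG⟩ := h
              exact ⟨x, hx, Finset.mem_filter.mpr ⟨hDF hx, hxG⟩⟩
            rw [indicator_of_mem h2, indicator_of_mem
              (show G ∈ {G : ClosedSubset d | ∃ x ∈ D, x ∈ G.carrier} from h), mul_one]
          · have h2 : T ∉ {T : Finset (Eu d) | ∃ x ∈ D, x ∈ T} := by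
              rintro ⟨x, hx, hxT⟩
              exact h ⟨x, hx, (Finset.mem_filter.mp hxT).2⟩
            rw [indicator_of_notMem h2, indicator_of_notMem
              (show G ∉ {G : ClosedSubset d | ∃ x ∈ D, x ∈ G.carrier} from h), mul_zero]
      have hm2 : ∀ x y : Eu d, MeasurableSet {G : ClosedSubset d | x ∈ G.carrier ∧ y ∈ G.carrier} :=
        fun x y => (Pool.Agent.LibRCS.measurableSet_mem x).inter (Pool.Agent.LibRCS.measurableSet_mem y)
      have hi1 : ∀ x y, Integrable (fun G => a x y *
          (({G : ClosedSubset d | x ∈ G.carrier ∧ y ∈ G.carrier}).indicator (fun _ => (1:ℝ)) G)) μ :=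
        fun x y => ((integrable_const (1:ℝ)).indicator (hm2 x y)).const_mul _
      have hi2 : ∀ D : Finset (Eu d), Integrable (fun G => b D *
          (({G : ClosedSubset d | ∃ x ∈ D, x ∈ G.carrier}).indicator (fun _ => (1:ℝ)) G)) μ :=
        fun D => ((integrable_const (1:ℝ)).indicator (hDm D)).const_mul _
      have hI1 : Integrable (fun G => ∑ x ∈ F, ∑ y ∈ F, a x y *
          (({G : ClosedSubset d | x ∈ G.carrier ∧ y ∈ G.carrier}).indicator (fun _ => (1:ℝ)) G)) μ :=
        integrable_finsetSum _ (fun x _ => integrable_finsetSum _ (fun y _ => hi1 x y))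
      have hI2 : Integrable (fun G => ∑ D ∈ F.powerset, b D *
          (({G : ClosedSubset d | ∃ x ∈ D, x ∈ G.carrier}).indicator (fun _ => (1:ℝ)) G)) μ :=
        integrable_finsetSum _ (fun D _ => hi2 D)
      have h5 : c ≤ ∫ G, f G ∂μ := by
        have h6 : ∫ _G : ClosedSubset d, c ∂μ ≤ ∫ G, f G ∂μ :=
          integral_mono (integrable_const _) (hI1.add hI2) hpt
        simpa using h6
      refine h5.trans ?_
      simp only [hf]
      rw [integral_add hI1 hI2,
        integral_finsetSum _ (fun x _ => integrable_finsetSum _ (fun y _ => hi1 x y)),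
        integral_finsetSum _ (fun D _ => hi2 D)]
      apply add_le_add
      · apply le_of_eq
        apply Finset.sum_congr rfl
        intro x _
        rw [integral_finsetSum _ (fun y _ => hi1 x y)]
        apply Finset.sum_congr rfl
        intro y _
        rw [integral_const_mul, integral_indicator (hm2 x y), ← htp x y]
        simp [measureReal_restrict_apply]
      · apply Finset.sum_le_sum
        intro D _
        rw [integral_const_mul]
        apply mul_le_mul_of_nonneg_left _ (hb D)
        rw [integral_indicator (hDm D)]
        simp only [integral_const, MeasurableSet.univ, measureReal_restrict_apply, univ_inter,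
          smul_eq_mul, mul_one]
        have := hD D
        linarith
  · rintro ⟨w, hw, h⟩
    exact sufficiency S w hw ((hiff w).mp h)

end Pool.Agent.LibRCS.Crit
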