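import Mathlib

open Set MeasureTheory

namespace Pool.Agent.LibRCS

/-- The closed subsets of `ℝ^d`. -/
structure ClosedSubset (d : ℕ) where
  /-- the underlying set -/
  carrier : Set (EuclideanSpace ℝ (Fin d))
  isClosed : IsClosed carrier

/-- The Fell (hit-or-miss) topology on the closed subsets of `ℝ^d`: it is generated by the sets
of those closed sets that miss a compact set `K`, and of those that hit an open set `U`. -/
instance instTopClosedSubset (d : ℕ) : TopologicalSpace (ClosedSubset d) :=
  TopologicalSpace.generateFrom
    ({s | ∃ K : Set (EuclideanSpace ℝ (Fin d)), IsCompact K ∧ s = {F | F.carrier ∩ K = ∅}} ∪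
      {s | ∃ U : Set (EuclideanSpace ℝ (Fin d)), IsOpen U ∧ s = {F | (F.carrier ∩ U).Nonempty}})

/-- The Borel sigma-algebra of the Fell topology. -/
instance instMeasClosedSubset (d : ℕ) : MeasurableSpace (ClosedSubset d) := borel _

instance instBorelClosedSubset (d : ℕ) : BorelSpace (ClosedSubset d) := ⟨rfl⟩

/-- The translate `F + a` of a closed set `F`. -/
def ClosedSubset.translate {d : ℕ} (a : EuclideanSpace ℝ (Fin d)) (F : ClosedSubset d) :
    ClosedSubset d :=
  ⟨{x | x - a ∈ F.carrier}, F.isClosed.preimage (continuous_id.sub continuous_const)⟩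

/-- `S` is the covariance of some stationary random closed set `X` in `ℝ^d`: there is a
probability measure `μ` on the closed sets (the law of `X`), for the Borel sigma-algebra of the
Fell topology, invariant under all translations, with `P(x ∈ X, y ∈ X) = S (x - y)`. -/
def IsStationaryRCSCovariance {d : ℕ} (S : EuclideanSpace ℝ (Fin d) → ℝ) : Prop :=
  ∃ μ : Measure (ClosedSubset d), IsProbabilityMeasure μ ∧
    (∀ a, μ.map (ClosedSubset.translate a) = μ) ∧
    ∀ x y, μ.real {F | x ∈ F.carrier ∧ y ∈ F.carrier} = S (x - y)

end Pool.Agent.LibRCS
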