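import Mathlib
open MeasureTheory AddCircle Filter Set
open scoped Topology ENNReal ComplexConjugate

namespace Pool.Agent.LibRCS

noncomputable section

abbrev T1 : Type := UnitAddCircle
abbrev mT : Measure T1 := (haarAddCircle : Measure (AddCircle (1:ℝ)))

instance : IsProbabilityMeasure mT := by unfold mT; infer_instance

lemma norm_fourier_apply (n : ℤ) (x : T1) : ‖(fourier n x : ℂ)‖ = 1 := by
  rw [fourier_apply]; exact Circle.norm_coe _

/-- trigonometric polynomials of degree at most `D` -/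
def TP (D : ℕ) : Submodule ℂ C(T1, ℂ) :=
  Submodule.span ℂ ((fun n : ℤ => (fourier n : C(T1, ℂ))) '' {n | |n| ≤ (D:ℤ)})

lemma TP_mono {a b : ℕ} (h : a ≤ b) : TP a ≤ TP b := by
  apply Submodule.span_mono
  apply Set.image_mono
  intro n hn
  simp only [Set.mem_ofPred_eq] at hn ⊢
  have : (a:ℤ) ≤ b := by exact_mod_cast h
  omega

lemma fourier_mem_TP (n : ℤ) (D : ℕ) (h : |n| ≤ (D:ℤ)) : (fourier n : C(T1, ℂ)) ∈ TP D :=
  Submodule.subset_span ⟨n, h, rfl⟩

lemma TP_mul {a b : ℕ} {f g : C(T1, ℂ)} (hf : f ∈ TP a) (hg : g ∈ TP b) : f * g ∈ TP (a + b) := by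
  have h : f * g ∈ TP a * TP b := Submodule.mul_mem_mul hf hg
  unfold TP at h
  rw [Submodule.span_mul_span] at h
  refine Submodule.span_mono ?_ h
  rintro _ ⟨_, ⟨m, hm, rfl⟩, _, ⟨n, hn, rfl⟩, rfl⟩
  refine ⟨m + n, ?_, ?_⟩
  · simp only [Set.mem_ofPred_eq] at hm hn ⊢
    push_cast
    exact (abs_add_le _ _).trans (add_le_add hm hn)
  · ext x; simp

lemma integrable_cont (f : C(T1, ℂ)) : Integrable (fun x => f x) mT :=
  Integrable.of_bound f.continuous.measurable.aestronglyMeasurable ‖f‖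
    (Eventually.of_forall (fun x => f.norm_coe_le_norm x))

lemma TP_coeff {D : ℕ} {f : C(T1, ℂ)} (hf : f ∈ TP D) (n : ℤ) (hn : (D:ℤ) < |n|) :
    fourierCoeff (fun x => f x) n = 0 := by
  unfold TP at hf
  induction hf using Submodule.span_induction with
  | mem x hx =>
    obtain ⟨m, hm, rfl⟩ := hx
    have := fourierCoeff_fourier (T := 1) m
    have h2 : fourierCoeff (fun x => (fourier m : C(T1, ℂ)) x) n = (Pi.single m (1:ℂ) : ℤ → ℂ) n := by
      rw [← this]
    rw [h2, Pi.single_apply, if_neg]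
    rintro rfl
    simp only [Set.mem_ofPred_eq] at hm
    omega
  | zero => unfold fourierCoeff; simp
  | add f g _ _ hf hg =>
    have : (fun x => (f + g) x) = (fun x => f x) + (fun x => g x) := by funext x; simp
    rw [this, fourierCoeff.add (integrable_cont f) (integrable_cont g), Pi.add_apply, hf, hg, add_zero]
  | smul c f _ hf =>
    have : (fun x => (c • f) x) = c • (fun x => f x) := by funext x; simp
    rw [this, fourierCoeff.const_smul, hf, smul_zero]

/-- complexification -/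
def cx (f : C(T1, ℝ)) : C(T1, ℂ) := ⟨fun x => (f x : ℂ), by fun_prop⟩

@[simp] lemma cx_apply (f : C(T1, ℝ)) (x : T1) : cx f x = (f x : ℂ) := rfl

lemma cx_add (f g : C(T1, ℝ)) : cx (f + g) = cx f + cx g := by ext x; simp
lemma cx_sub (f g : C(T1, ℝ)) : cx (f - g) = cx f - cx g := by ext x; simp
lemma cx_mul (f g : C(T1, ℝ)) : cx (f * g) = cx f * cx g := by ext x; simp
lemma cx_smul (c : ℝ) (f : C(T1, ℝ)) : cx (c • f) = (c:ℂ) • cx f := by ext x; simp
lemma cx_one : cx 1 = 1 := by ext x; simp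

lemma one_mem_TP (D : ℕ) : (1 : C(T1, ℂ)) ∈ TP D := by
  have h : (1 : C(T1, ℂ)) = fourier 0 := by ext x; simp
  rw [h]; exact fourier_mem_TP 0 D (by simp)

/-- the cosine of frequency `M` -/
def cosm (M : ℕ) : C(T1, ℝ) := ⟨fun x => (fourier (M:ℤ) x : ℂ).re, by fun_prop⟩

lemma cosm_apply (M : ℕ) (x : T1) : cosm M x = (fourier (M:ℤ) x : ℂ).re := rfl

lemma cx_cosm (M : ℕ) : cx (cosm M) = (1/2 : ℂ) • (fourier (M:ℤ) + fourier (-(M:ℤ))) := by
  ext x
  simp only [cx_apply, cosm_apply, ContinuousMap.smul_apply, ContinuousMap.add_apply, smul_eq_mul]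
  rw [fourier_neg, Complex.re_eq_add_conj]
  ring

lemma cosm_mem (M : ℕ) : cx (cosm M) ∈ TP M := by
  rw [cx_cosm]
  apply Submodule.smul_mem
  apply Submodule.add_mem
  · exact fourier_mem_TP _ _ (by simp)
  · exact fourier_mem_TP _ _ (by simp)

lemma abs_cosm_le (M : ℕ) (x : T1) : |cosm M x| ≤ 1 := by
  rw [cosm_apply]
  calc |(fourier (M:ℤ) x : ℂ).re| ≤ ‖(fourier (M:ℤ) x : ℂ)‖ := Complex.abs_re_le_norm _
    _ = 1 := norm_fourier_apply _ _

lemma cosm_sq (M : ℕ) (x : T1) : cosm M x ^ 2 = (1 + cosm (2 * M) x) / 2 := by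
  rw [cosm_apply, cosm_apply]
  have h1 : (fourier ((2 * M : ℕ) : ℤ) x : ℂ) = fourier (M:ℤ) x * fourier (M:ℤ) x := by
    rw [← fourier_add]; congr 1; push_cast; ring_nf
  rw [h1]
  have h2 : ‖(fourier (M:ℤ) x : ℂ)‖ ^ 2 = 1 := by rw [norm_fourier_apply]; norm_num
  rw [← Complex.normSq_eq_norm_sq, Complex.normSq_apply] at h2
  rw [Complex.mul_re]
  nlinarith

/-- Fourier coefficients of a product with a cosine -/
lemma coeff_mul_cosm (u : C(T1, ℂ)) (M : ℕ) (n : ℤ) :
    fourierCoeff (fun x => (u * cx (cosm M)) x) n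
      = (1/2 : ℂ) * (fourierCoeff (fun x => u x) (n - M) + fourierCoeff (fun x => u x) (n + M)) := by
  rw [cx_cosm]
  unfold fourierCoeff
  rw [← integral_add, ← integral_const_mul]
  · congr 1
    funext x
    simp only [ContinuousMap.mul_apply, ContinuousMap.smul_apply, ContinuousMap.add_apply, smul_eq_mul]
    have h1 : (fourier (-(n - (M:ℤ))) x : ℂ) = fourier (-n) x * fourier (M:ℤ) x := by
      rw [neg_sub, sub_eq_neg_add, fourier_add]
    have h2 : (fourier (-(n + (M:ℤ))) x : ℂ) = fourier (-n) x * fourier (-(M:ℤ)) x := by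
      rw [neg_add, fourier_add]
    rw [h1, h2]; ring
  · have := integrable_cont ((fourier (-(n - (M:ℤ)))) * u)
    exact this.congr (Eventually.of_forall (fun x => by simp [smul_eq_mul]))
  · have := integrable_cont ((fourier (-(n + (M:ℤ)))) * u)
    exact this.congr (Eventually.of_forall (fun x => by simp [smul_eq_mul]))

lemma integral_mul_cosm (u : C(T1, ℝ)) (a M : ℕ) (hu : cx u ∈ TP a) (hM : a < M) :
    ∫ x, u x * cosm M x ∂mT = 0 := by
  have h := coeff_mul_cosm (cx u) M 0
  have h1 : fourierCoeff (fun x => cx u x) (0 - (M:ℤ)) = 0 := by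
    apply TP_coeff hu
    rw [zero_sub, abs_neg, Nat.abs_cast]; exact_mod_cast hM
  have h2 : fourierCoeff (fun x => cx u x) (0 + (M:ℤ)) = 0 := by
    apply TP_coeff hu
    rw [zero_add, Nat.abs_cast]; exact_mod_cast hM
  rw [h1, h2] at h
  unfold fourierCoeff at h
  simp only [neg_zero, fourier_zero, one_smul, add_zero, mul_zero] at h
  have h3 : ∫ x, (cx u * cx (cosm M)) x ∂mT = ((∫ x, u x * cosm M x ∂mT : ℝ) : ℂ) := by
    have h4 := integral_ofReal (μ := mT) (𝕜 := ℂ) (f := fun x => u x * cosm M x)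
    refine Eq.trans ?_ h4
    congr 1
    funext x
    simp
  rw [h3] at h
  exact_mod_cast h

/-- one step of the construction -/
def stepf (f : C(T1, ℝ)) (M : ℕ) : C(T1, ℝ) := f + (1/2 : ℝ) • ((1 - f * f) * cosm M)

lemma stepf_apply (f : C(T1, ℝ)) (M : ℕ) (x : T1) :
    stepf f M x = f x + (1/2) * ((1 - f x * f x) * cosm M x) := by
  simp [stepf]

lemma stepf_bound (f : C(T1, ℝ)) (M : ℕ) (hf : ∀ x, |f x| ≤ 1) (x : T1) : |stepf f M x| ≤ 1 := by
  rw [stepf_apply]
  have h1 := abs_le.mp (hf x)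
  have h2 := abs_le.mp (abs_cosm_le M x)
  have h3 : 0 ≤ 1 - f x * f x := by nlinarith
  rw [abs_le]
  constructor
  · nlinarith [mul_nonneg h3 (by linarith : 0 ≤ 1 + cosm M x)]
  · nlinarith [mul_nonneg h3 (by linarith : 0 ≤ 1 - cosm M x)]

lemma one_sub_sq_mem {f : C(T1, ℝ)} {D : ℕ} (hf : cx f ∈ TP D) : cx (1 - f * f) ∈ TP (2 * D) := by
  rw [cx_sub, cx_one, cx_mul]
  apply Submodule.sub_mem _ (one_mem_TP _)
  have := TP_mul hf hf
  rwa [← two_mul] at this

lemma stepf_mem {f : C(T1, ℝ)} {D : ℕ} (hf : cx f ∈ TP D) (M : ℕ) :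
    cx (stepf f M) ∈ TP (M + 2 * D) := by
  unfold stepf
  rw [cx_add, cx_smul, cx_mul]
  apply Submodule.add_mem
  · exact TP_mono (by omega) hf
  · apply Submodule.smul_mem
    have := TP_mul (one_sub_sq_mem hf) (cosm_mem M)
    rwa [add_comm] at this

lemma stepf_coeff {f : C(T1, ℝ)} {D : ℕ} (hf : cx f ∈ TP D) (M : ℕ) (n : ℤ)
    (hn : |n| + 2 * D < M) :
    fourierCoeff (fun x => cx (stepf f M) x) n = fourierCoeff (fun x => cx f x) n := by
  have e : (fun x => cx (stepf f M) x) = (fun x => cx f x) +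
      ((1/2 : ℝ) : ℂ) • (fun x => (cx (1 - f * f) * cx (cosm M)) x) := by
    funext x
    simp [stepf]
  rw [e, fourierCoeff.add (integrable_cont _)
    ((integrable_cont (cx (1 - f * f) * cx (cosm M))).smul _), Pi.add_apply,
    fourierCoeff.const_smul, coeff_mul_cosm]
  have hu := one_sub_sq_mem hf
  have h0 := abs_nonneg n
  have hn1 := neg_abs_le n
  have hn2 := le_abs_self n
  rw [TP_coeff hu (n - M) (by push_cast; rw [lt_abs]; right; omega),
    TP_coeff hu (n + M) (by push_cast; rw [lt_abs]; left; omega)]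
  simp

lemma stepf_energy {f : C(T1, ℝ)} {D : ℕ} (hf : cx f ∈ TP D) (M : ℕ) (hM : 4 * D < M) :
    ∫ x, stepf f M x ^ 2 ∂mT = ∫ x, f x ^ 2 ∂mT + (1/8) * ∫ x, (1 - f x ^ 2) ^ 2 ∂mT := by
  have hint : ∀ g : C(T1, ℝ), Integrable (fun x => g x) mT := fun g =>
    Integrable.of_bound g.continuous.measurable.aestronglyMeasurable ‖g‖
      (Eventually.of_forall (fun x => g.norm_coe_le_norm x))
  have hu := one_sub_sq_mem hf
  have h1 : ∫ x, (f * (1 - f * f)) x * cosm M x ∂mT = 0 := by
    apply integral_mul_cosm _ (D + 2 * D) _ _ (by omega)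
    rw [cx_mul]; exact TP_mul hf hu
  have h2 : ∫ x, ((1 - f * f) * (1 - f * f)) x * cosm (2 * M) x ∂mT = 0 := by
    apply integral_mul_cosm _ (2 * D + 2 * D) _ _ (by omega)
    rw [cx_mul]; exact TP_mul hu hu
  have e : (fun x => stepf f M x ^ 2) = fun x => f x ^ 2 + ((f * (1 - f * f)) x * cosm M x
      + ((1/8) * (1 - f x ^ 2) ^ 2 + (1/8) * (((1 - f * f) * (1 - f * f)) x * cosm (2 * M) x))) := by
    funext x
    rw [stepf_apply]
    simp only [ContinuousMap.mul_apply, ContinuousMap.sub_apply, ContinuousMap.one_apply]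
    have := cosm_sq M x
    have h3 : (f x + (1/2) * ((1 - f x * f x) * cosm M x)) ^ 2
      = f x ^ 2 + f x * (1 - f x * f x) * cosm M x + (1/4) * (1 - f x * f x)^2 * cosm M x ^ 2 := by ring
    rw [h3, this]; ring
  rw [e, integral_add, integral_add, integral_add, integral_const_mul, integral_const_mul, h1, h2]
  · ring
  · exact (hint ((1/8 : ℝ) • (1 - f^2)^2)).congr (Eventually.of_forall (fun x => by simp))
  · exact (hint ((1/8 : ℝ) • (((1 - f * f) * (1 - f * f)) * cosm (2 * M)))).congr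
      (Eventually.of_forall (fun x => by simp))
  · exact (hint ((f * (1 - f * f)) * cosm M)).congr (Eventually.of_forall (fun x => by simp))
  · exact (hint ((1/8 : ℝ) • (1 - f^2)^2 + (1/8 : ℝ) • (((1 - f * f) * (1 - f * f)) * cosm (2 * M)))).congr
      (Eventually.of_forall (fun x => by simp))
  · exact (hint (f^2)).congr (Eventually.of_forall (fun x => by simp))
  · exact (hint ((f * (1 - f * f)) * cosm M + ((1/8 : ℝ) • (1 - f^2)^2 + (1/8 : ℝ) • (((1 - f * f) * (1 - f * f)) * cosm (2 * M))))).congr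
      (Eventually.of_forall (fun x => by simp))


/-- degrees -/
def degs (G : ℕ → ℕ → ℕ) : ℕ → ℕ
  | 0 => 0
  | k + 1 => (G k (degs G k) + 4 * degs G k + 1) + 2 * degs G k

/-- frequencies -/
def frq (G : ℕ → ℕ → ℕ) (k : ℕ) : ℕ := G k (degs G k) + 4 * degs G k + 1

lemma degs_succ (G : ℕ → ℕ → ℕ) (k : ℕ) : degs G (k+1) = frq G k + 2 * degs G k := rfl

/-- the sequence of functions -/
def fseq (G : ℕ → ℕ → ℕ) (c : ℝ) : ℕ → C(T1, ℝ)
  | 0 => ContinuousMap.const _ c
  | k + 1 => stepf (fseq G c k) (frq G k)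

lemma fseq_mem (G : ℕ → ℕ → ℕ) (c : ℝ) (k : ℕ) : cx (fseq G c k) ∈ TP (degs G k) := by
  induction k with
  | zero =>
    have : cx (fseq G c 0) = (c:ℂ) • 1 := by ext x; simp [fseq]
    rw [this]
    exact Submodule.smul_mem _ _ (one_mem_TP _)
  | succ k ih => exact stepf_mem ih _

lemma fseq_bound (G : ℕ → ℕ → ℕ) (c : ℝ) (hc : |c| ≤ 1) (k : ℕ) (x : T1) : |fseq G c k x| ≤ 1 := by
  induction k generalizing x with
  | zero => simpa [fseq] using hc
  | succ k ih => exact stepf_bound _ _ ih x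

lemma gap_mono (G : ℕ → ℕ → ℕ) (k m : ℕ) (h : k ≤ m) :
    G k (degs G k) + 2 * degs G k + 1 ≤ G m (degs G m) + 2 * degs G m + 1 := by
  induction m, h using Nat.le_induction with
  | base => exact le_rfl
  | succ m _ ih =>
    have := degs_succ G m
    unfold frq at this
    omega

lemma fseq_coeff (G : ℕ → ℕ → ℕ) (c : ℝ) (k m : ℕ) (h : k ≤ m) (n : ℤ)
    (hn : |n| < (G k (degs G k) + 2 * degs G k + 1 : ℕ)) :
    fourierCoeff (fun x => cx (fseq G c m) x) n = fourierCoeff (fun x => cx (fseq G c k) x) n := by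
  induction m, h using Nat.le_induction with
  | base => rfl
  | succ m hkm ih =>
    rw [← ih]
    apply stepf_coeff (fseq_mem G c m)
    have := gap_mono G k m hkm
    unfold frq
    push_cast at hn ⊢
    have h2 : (G k (degs G k) + 2 * degs G k + 1 : ℤ) ≤ (G m (degs G m) + 2 * degs G m + 1 : ℤ) := by
      exact_mod_cast this
    omega

/-- energies -/
def en (G : ℕ → ℕ → ℕ) (c : ℝ) (k : ℕ) : ℝ := ∫ x, fseq G c k x ^ 2 ∂mT

lemma integrable_real (g : C(T1, ℝ)) : Integrable (fun x => g x) mT :=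
  Integrable.of_bound g.continuous.measurable.aestronglyMeasurable ‖g‖
      (Eventually.of_forall (fun x => g.norm_coe_le_norm x))

lemma en_le_one (G : ℕ → ℕ → ℕ) (c : ℝ) (hc : |c| ≤ 1) (k : ℕ) : en G c k ≤ 1 := by
  have h : ∫ x, fseq G c k x ^ 2 ∂mT ≤ ∫ x, (1:ℝ) ∂mT := by
    apply integral_mono
    · exact (integrable_real ((fseq G c k)^2)).congr (Eventually.of_forall (fun x => by simp))
    · exact integrable_const _
    · intro x
      have := fseq_bound G c hc k x
      simpa using (sq_le_one_iff_abs_le_one _).mpr this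
  simpa [en] using h

lemma en_step (G : ℕ → ℕ → ℕ) (c : ℝ) (k : ℕ) :
    en G c k + (1/8) * (1 - en G c k) ^ 2 ≤ en G c (k+1) := by
  have h := stepf_energy (fseq_mem G c k) (frq G k) (by unfold frq; omega)
  have h2 : en G c (k+1) = ∫ x, stepf (fseq G c k) (frq G k) x ^ 2 ∂mT := rfl
  rw [h2, h]
  have h3 : (1 - en G c k) ^ 2 ≤ ∫ x, (1 - fseq G c k x ^ 2) ^ 2 ∂mT := by
    -- variance is nonnegative
    have hu : Integrable (fun x => 1 - fseq G c k x ^ 2) mT :=
      (integrable_real (1 - (fseq G c k)^2)).congr (Eventually.of_forall (fun x => by simp))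
    have hu2 : Integrable (fun x => (1 - fseq G c k x ^ 2) ^ 2) mT :=
      (integrable_real ((1 - (fseq G c k)^2)^2)).congr (Eventually.of_forall (fun x => by simp))
    have hI : ∫ x, (1 - fseq G c k x ^ 2) ∂mT = 1 - en G c k := by
      rw [integral_sub (integrable_const _)]
      · simp [en]
      · exact (integrable_real ((fseq G c k)^2)).congr (Eventually.of_forall (fun x => by simp))
    have h4 : 0 ≤ ∫ x, ((1 - fseq G c k x ^ 2) - (1 - en G c k)) ^ 2 ∂mT :=
      integral_nonneg (fun x => sq_nonneg _)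
    have h5 : ∫ x, ((1 - fseq G c k x ^ 2) - (1 - en G c k)) ^ 2 ∂mT
        = ∫ x, (1 - fseq G c k x ^ 2) ^ 2 ∂mT - (1 - en G c k) ^ 2 := by
      have e : (fun x => ((1 - fseq G c k x ^ 2) - (1 - en G c k)) ^ 2)
        = fun x => (1 - fseq G c k x ^ 2) ^ 2 - ((2 * (1 - en G c k)) * (1 - fseq G c k x ^ 2)
          - (1 - en G c k)^2) := by
        funext x; ring
      have hB : Integrable (fun x => (2 * (1 - en G c k)) * (1 - fseq G c k x ^ 2)
          - (1 - en G c k)^2) mT := (hu.const_mul _).sub (integrable_const _)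
      rw [e, integral_sub hu2 hB,
        integral_sub (hu.const_mul _) (integrable_const _), integral_const_mul, hI]
      simp
      ring
    linarith
  unfold en at *
  linarith

lemma en_mono (G : ℕ → ℕ → ℕ) (c : ℝ) : Monotone (en G c) := by
  apply monotone_nat_of_le_succ
  intro k
  have := en_step G c k
  nlinarith [sq_nonneg (1 - en G c k)]

lemma en_tendsto (G : ℕ → ℕ → ℕ) (c : ℝ) (hc : |c| ≤ 1) : Tendsto (en G c) atTop (𝓝 1) := by
  have hb : BddAbove (range (en G c)) := ⟨1, by rintro _ ⟨k, rfl⟩; exact en_le_one G c hc k⟩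
  have ht := tendsto_atTop_ciSup (en_mono G c) hb
  set a := ⨆ k, en G c k with ha
  have ha1 : a ≤ 1 := ciSup_le (en_le_one G c hc)
  have h1 : Tendsto (fun k => en G c k + (1/8) * (1 - en G c k) ^ 2) atTop
      (𝓝 (a + (1/8) * (1 - a)^2)) := by
    exact ht.add (((tendsto_const_nhds.sub ht).pow 2).const_mul _)
  have h2 : Tendsto (fun k => en G c (k+1)) atTop (𝓝 a) := ht.comp (tendsto_add_atTop_nat 1)
  have h3 : a + (1/8) * (1 - a)^2 ≤ a := le_of_tendsto_of_tendsto' h1 h2 (en_step G c)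
  have h4 : (1 - a)^2 ≤ 0 := by linarith
  have h5 : 1 - a = 0 := by
    have := sq_nonneg (1 - a)
    exact pow_eq_zero_iff (two_ne_zero) |>.mp (le_antisymm h4 this)
  have : a = 1 := by linarith
  rwa [this] at ht

/-- the `L²` class -/
def toL (f : C(T1, ℝ)) : Lp ℂ 2 mT := ContinuousMap.toLp (E := ℂ) 2 mT ℂ (cx f)

lemma toL_coe (f : C(T1, ℝ)) : toL f =ᵐ[mT] fun x => (f x : ℂ) :=
  ContinuousMap.coeFn_toLp mT (cx f)

lemma norm_toL_sq (f : C(T1, ℝ)) : ‖toL f‖ ^ 2 = ∫ x, f x ^ 2 ∂mT := by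
  have h := L2.inner_def (𝕜 := ℂ) (toL f) (toL f)
  rw [inner_self_eq_norm_sq_to_K] at h
  have h2 : ∫ x, inner ℂ (toL f x) (toL f x) ∂mT = ((∫ x, f x ^ 2 ∂mT : ℝ) : ℂ) := by
    have h4 := integral_ofReal (μ := mT) (𝕜 := ℂ) (f := fun x => f x ^ 2)
    refine Eq.trans ?_ h4
    apply integral_congr_ae
    filter_upwards [toL_coe f] with x hx
    rw [hx]
    simp only [RCLike.inner_apply, Complex.conj_ofReal]
    rw [← pow_two]
    push_cast
    rfl
  rw [h2] at h
  apply Complex.ofReal_injective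
  rw [← h]
  simp

lemma coeff_toL (f : C(T1, ℝ)) (n : ℤ) :
    fourierCoeff (toL f) n = fourierCoeff (fun x => cx f x) n := by
  have : toL f =ᵐ[mT] fun x => cx f x := toL_coe f
  rw [fourierCoeff_congr_ae this]

lemma inner_fourierLp (g : Lp ℂ 2 mT) (i : ℤ) :
    inner ℂ (fourierLp 2 i : Lp ℂ 2 mT) g = fourierCoeff g i := by
  have := fourierBasis_repr g i
  rw [HilbertBasis.repr_apply_apply] at this
  rw [← this, coe_fourierBasis]

lemma inner_TP_eq_zero {D : ℕ} {P : C(T1, ℂ)} (hP : P ∈ TP D) (g : Lp ℂ 2 mT)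
    (hg : ∀ n : ℤ, |n| ≤ D → fourierCoeff g n = 0) :
    inner ℂ (ContinuousMap.toLp (E := ℂ) 2 mT ℂ P) g = 0 := by
  unfold TP at hP
  induction hP using Submodule.span_induction with
  | mem x hx =>
    obtain ⟨m, hm, rfl⟩ := hx
    rw [← hg m hm, ← inner_fourierLp]
  | zero => simp
  | add f g _ _ hf hg => rw [map_add, inner_add_left, hf, hg, add_zero]
  | smul c f _ hf => rw [map_smul, inner_smul_left, hf, mul_zero]

lemma coeff_sub (f g : Lp ℂ 2 mT) (n : ℤ) :
    fourierCoeff (f - g : Lp ℂ 2 mT) n = fourierCoeff f n - fourierCoeff g n := by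
  rw [← inner_fourierLp, inner_sub_right, inner_fourierLp, inner_fourierLp]

lemma dist_toL (G : ℕ → ℕ → ℕ) (c : ℝ) (k m : ℕ) (h : k ≤ m) :
    ‖toL (fseq G c m) - toL (fseq G c k)‖ ^ 2 = en G c m - en G c k := by
  have horth : inner ℂ (toL (fseq G c k)) (toL (fseq G c m) - toL (fseq G c k)) = 0 := by
    apply inner_TP_eq_zero (fseq_mem G c k)
    intro n hn
    rw [coeff_sub, coeff_toL, coeff_toL, fseq_coeff G c k m h n, sub_self]
    push_cast
    have : (0:ℤ) ≤ G k (degs G k) := by positivity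
    omega
  have h1 : toL (fseq G c m) = toL (fseq G c k) + (toL (fseq G c m) - toL (fseq G c k)) := by abel
  have h2 := norm_add_sq_eq_norm_sq_add_norm_sq_of_inner_eq_zero _ _ horth
  rw [← h1] at h2
  have h3 := norm_toL_sq (fseq G c m)
  have h4 := norm_toL_sq (fseq G c k)
  unfold en
  nlinarith


/-- the main deterministic construction -/
theorem exists_gap_set (G : ℕ → ℕ → ℕ) (p : ℝ) (hp0 : 0 ≤ p) (hp1 : p ≤ 1) :
    ∃ (E : Set T1) (D : ℕ → ℕ), MeasurableSet E ∧ mT.real E = p ∧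
      ∀ k (n : ℤ), (D k : ℤ) < |n| → |n| < G k (D k) →
        fourierCoeff (E.indicator (fun _ => (1:ℂ))) n = 0 := by
  classical
  set c : ℝ := 2 * p - 1 with hc
  have hc1 : |c| ≤ 1 := by rw [abs_le]; constructor <;> linarith
  -- the limit
  have hen := en_tendsto G c hc1
  have hcau : CauchySeq (fun k => toL (fseq G c k)) := by
    apply cauchySeq_of_le_tendsto_0 (fun k => 2 * Real.sqrt (1 - en G c k))
    · have hk : ∀ k m, k ≤ m → dist (toL (fseq G c m)) (toL (fseq G c k)) ≤ Real.sqrt (1 - en G c k) := by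
        intro k m h
        rw [dist_eq_norm]
        apply Real.le_sqrt_of_sq_le
        rw [dist_toL G c k m h]
        have := en_le_one G c hc1 m
        linarith
      intro n m N hn hm
      calc dist (toL (fseq G c n)) (toL (fseq G c m))
          ≤ dist (toL (fseq G c n)) (toL (fseq G c N)) + dist (toL (fseq G c m)) (toL (fseq G c N)) :=
            dist_triangle_right _ _ _
        _ ≤ 2 * Real.sqrt (1 - en G c N) := by
          have h1 := hk N n hn
          have h2 := hk N m hm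
          linarith
    · have h1 : Tendsto (fun k => 1 - en G c k) atTop (𝓝 0) := by
        have := (tendsto_const_nhds (x := (1:ℝ))).sub hen
        simpa using this
      have h2 := (Real.continuous_sqrt.tendsto 0).comp h1
      rw [Real.sqrt_zero] at h2
      have h3 := h2.const_mul 2
      simpa using h3
  obtain ⟨F, hF⟩ := cauchySeq_tendsto_of_complete hcau
  -- norm one
  have hFn : ‖F‖ ^ 2 = 1 := by
    have h1 : Tendsto (fun k => ‖toL (fseq G c k)‖ ^ 2) atTop (𝓝 (‖F‖ ^ 2)) := (hF.norm).pow 2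
    have h2 : (fun k => ‖toL (fseq G c k)‖ ^ 2) = en G c := by
      funext k; exact norm_toL_sq _
    rw [h2] at h1
    exact tendsto_nhds_unique h1 hen
  -- pointwise properties
  obtain ⟨ns, hns, hae⟩ := (tendstoInMeasure_of_tendsto_Lp hF).exists_seq_tendsto_ae
  have hall : ∀ᵐ x ∂mT, ∀ k, toL (fseq G c k) x = ((fseq G c k x : ℝ) : ℂ) := by
    rw [ae_all_iff]; intro k; exact toL_coe _
  have hreal : ∀ᵐ x ∂mT, ∃ y : ℝ, |y| ≤ 1 ∧ F x = (y : ℂ) := by
    filter_upwards [hae, hall] with x hx1 hx2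
    have hx3 : Tendsto (fun i => ((fseq G c (ns i) x : ℝ) : ℂ)) atTop (𝓝 (F x)) := by
      simpa [hx2] using hx1
    have hre : Tendsto (fun i => fseq G c (ns i) x) atTop (𝓝 (F x).re) := by
      have := (Complex.continuous_re.tendsto (F x)).comp hx3
      simpa [Function.comp_def] using this
    have him : Tendsto (fun i : ℕ => (0:ℝ)) atTop (𝓝 (F x).im) := by
      have := (Complex.continuous_im.tendsto (F x)).comp hx3
      simpa [Function.comp_def] using this
    have him0 : (F x).im = 0 := (tendsto_nhds_unique him tendsto_const_nhds)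
    refine ⟨(F x).re, ?_, ?_⟩
    · exact le_of_tendsto' hre.abs (fun i => fseq_bound G c hc1 _ x)
    · apply Complex.ext <;> simp [him0]
  have hint2 : ∫ x, ‖F x‖ ^ 2 ∂mT = 1 := by
    have h := L2.inner_def (𝕜 := ℂ) F F
    rw [inner_self_eq_norm_sq_to_K] at h
    have h4 := integral_ofReal (μ := mT) (𝕜 := ℂ) (f := fun x => ‖F x‖ ^ 2)
    have h5 : ∫ x, inner ℂ (F x) (F x) ∂mT = ((∫ x, ‖F x‖ ^ 2 ∂mT : ℝ) : ℂ) := by
      refine Eq.trans ?_ h4
      apply integral_congr_ae
      filter_upwards with x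
      rw [inner_self_eq_norm_sq_to_K]
      push_cast
      rfl
    rw [h5] at h
    apply Complex.ofReal_injective
    rw [← h]
    have : ((‖F‖ ^ 2 : ℝ) : ℂ) = 1 := by rw [hFn]; simp
    simpa using this
  have hFint : Integrable (fun x => ‖F x‖ ^ 2) mT := (Lp.memLp F).integrable_norm_pow (by norm_num)
  have hone : ∀ᵐ x ∂mT, ‖F x‖ ^ 2 = 1 := by
    have h0 : ∫ x, (1 - ‖F x‖ ^ 2) ∂mT = 0 := by
      rw [integral_sub (integrable_const _) hFint, hint2]; simp
    have hnn : 0 ≤ᵐ[mT] fun x => 1 - ‖F x‖ ^ 2 := by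
      filter_upwards [hreal] with x ⟨y, hy, hxy⟩
      rw [hxy]
      simp only [Complex.norm_real, Real.norm_eq_abs, sq_abs, Pi.zero_apply, sub_nonneg]
      exact (sq_le_one_iff_abs_le_one _).mpr hy
    have h1 := (integral_eq_zero_iff_of_nonneg_ae hnn ((integrable_const _).sub hFint)).mp h0
    filter_upwards [h1] with x hx
    simp only [Pi.zero_apply] at hx
    linarith
  have hpm : ∀ᵐ x ∂mT, F x = 1 ∨ F x = -1 := by
    filter_upwards [hreal, hone] with x ⟨y, hy, hxy⟩ hx
    rw [hxy] at hx ⊢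
    simp only [Complex.norm_real, Real.norm_eq_abs, sq_abs] at hx
    have hy2 : (y - 1) * (y + 1) = 0 := by nlinarith
    rcases mul_eq_zero.mp hy2 with h | h
    · left
      have : y = 1 := by linarith
      simp [this]
    · right
      have : y = -1 := by linarith
      simp [this]
  -- the set
  set E : Set T1 := {x | 0 < (F x).re} with hE
  have hEm : MeasurableSet E :=
    measurableSet_lt measurable_const (Complex.measurable_re.comp (Lp.stronglyMeasurable F).measurable)
  have hEF : E.indicator (fun _ => (1:ℂ)) =ᵐ[mT] fun x => (1/2 : ℂ) * (1 + F x) := by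
    filter_upwards [hpm] with x hx
    rcases hx with hx | hx
    · have : x ∈ E := by simp [hE, hx]
      simp [this, hx]
      norm_num
    · have : x ∉ E := by simp [hE, hx]
      simp [this, hx]
  have hFi : Integrable (fun x => F x) mT := (Lp.memLp F).integrable (by norm_num)
  have hcoeff : ∀ n, fourierCoeff (E.indicator (fun _ => (1:ℂ))) n
      = (1/2 : ℂ) * (fourierCoeff (fun _ : T1 => (1:ℂ)) n + fourierCoeff F n) := by
    intro n
    rw [fourierCoeff_congr_ae hEF]
    have e : (fun x => (1/2 : ℂ) * (1 + F x)) = fun x => (1/2 : ℂ) * ((fun _ : T1 => (1:ℂ)) + (fun x : T1 => F x)) x := by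
      funext x; simp
    rw [e, fourierCoeff.const_mul, fourierCoeff.add (integrable_const _) hFi]
    rfl
  have hlim : ∀ k (n : ℤ), |n| < (G k (degs G k) + 2 * degs G k + 1 : ℕ) →
      fourierCoeff F n = fourierCoeff (fun x => cx (fseq G c k) x) n := by
    intro k n hn
    have h1 : Tendsto (fun m => fourierCoeff (toL (fseq G c m)) n) atTop (𝓝 (fourierCoeff F n)) := by
      simp_rw [← inner_fourierLp]
      exact (tendsto_const_nhds).inner hF
    have h2 : (fun m => fourierCoeff (toL (fseq G c m)) n) =ᶠ[atTop]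
        fun _ => fourierCoeff (fun x => cx (fseq G c k) x) n := by
      filter_upwards [eventually_ge_atTop k] with m hm
      rw [coeff_toL, fseq_coeff G c k m hm n hn]
    exact tendsto_nhds_unique (h1.congr' h2) tendsto_const_nhds |>.symm ▸ rfl
  refine ⟨E, degs G, hEm, ?_, ?_⟩
  · have h0 := hcoeff 0
    rw [hlim 0 0 (by rw [abs_zero]; exact_mod_cast Nat.succ_pos _)] at h0
    unfold fourierCoeff at h0
    simp only [neg_zero, fourier_zero, one_smul, fseq, cx_apply, ContinuousMap.const_apply,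
      integral_const, probReal_univ] at h0
    rw [integral_indicator hEm] at h0
    simp only [integral_const, MeasurableSet.univ, measureReal_restrict_apply, univ_inter] at h0
    have h1 : mT.real E = (1/2) * (1 + c) := by
      apply Complex.ofReal_injective
      push_cast
      simpa using h0
    rw [h1, hc]; ring
  · intro k n hn1 hn2
    have hn0 : n ≠ 0 := by
      rintro rfl; simp at hn1; omega
    have h3 : fourierCoeff F n = 0 := by
      rw [hlim k n (by push_cast; omega)]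
      exact TP_coeff (fseq_mem G c k) n hn1
    rw [hcoeff, h3, add_zero]
    have h4 : fourierCoeff (fun _ : T1 => (1:ℂ)) n = 0 := by
      have := TP_coeff (one_mem_TP 0) n (by simpa using hn0)
      simpa using this
    rw [h4, mul_zero]

/-- translation multiplies the Fourier coefficient -/
lemma fourierCoeff_translate (w : T1 → ℂ) (ε : T1) (m : ℤ) :
    fourierCoeff (fun x => w (x - ε)) m = conj (fourier m ε) * fourierCoeff w m := by
  unfold fourierCoeff
  have h := integral_sub_right_eq_self (μ := mT) (fun x => fourier (-m) (x + ε) • w x) ε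
  simp only [sub_add_cancel] at h
  have h2 : ∀ x : T1, fourier (-m) (x + ε) • w x = conj (fourier m ε) • (fourier (-m) x • w x) := by
    intro x
    rw [← fourier_neg]
    have : (fourier (-m) (x + ε) : ℂ) = fourier (-m) x * fourier (-m) ε := by
      simp [fourier_apply, smul_add, AddCircle.toCircle_add]
    rw [this]
    simp only [smul_eq_mul]
    ring
  simp only [h2] at h
  rw [integral_smul] at h
  simpa using h

lemma exists_small_ne_one (n : ℤ) (hn : n ≠ 0) (W : Set T1) (hW : W ∈ 𝓝 (0:T1)) :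
    ∃ ε ∈ W, (fourier n ε : ℂ) ≠ 1 := by
  have hc : Tendsto (fun t : ℝ => (t : T1)) (𝓝 0) (𝓝 ((0:ℝ):T1)) :=
    (AddCircle.continuous_mk' (1:ℝ)).tendsto 0
  have h0 : ((0:ℝ) : T1) = 0 := by simp
  rw [h0] at hc
  have h1 : ∀ᶠ t : ℝ in 𝓝[>] 0, (t : T1) ∈ W := (hc.eventually hW).filter_mono nhdsWithin_le_nhds
  have h2 : ∀ᶠ t : ℝ in 𝓝[>] 0, t < 1 / |(n:ℝ)| := by
    have : (0:ℝ) < 1 / |(n:ℝ)| := by positivity
    exact (eventually_lt_nhds this).filter_mono nhdsWithin_le_nhds
  have h3 : ∀ᶠ t : ℝ in 𝓝[>] 0, 0 < t := eventually_mem_nhdsWithin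
  obtain ⟨t, ht1, ht2, ht3⟩ := (h1.and (h2.and h3)).exists
  refine ⟨t, ht1, ?_⟩
  rw [fourier_coe_apply]
  intro h
  rw [Complex.exp_eq_one_iff] at h
  obtain ⟨k, hk⟩ := h
  have hpi : (2 * (Real.pi:ℂ) * Complex.I) ≠ 0 := by
    simp [Real.pi_ne_zero]
  have hk' : (n:ℂ) * t = k := by
    have : (2 * (Real.pi:ℂ) * Complex.I) * ((n:ℂ) * t) = (2 * (Real.pi:ℂ) * Complex.I) * k := by
      have h5 : 2 * (Real.pi:ℂ) * Complex.I * n * t / ((1:ℝ):ℂ) = (2 * (Real.pi:ℂ) * Complex.I) * ((n:ℂ) * t) := by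
        push_cast; ring
      rw [← h5, hk]; ring
    exact mul_left_cancel₀ hpi this
  have hk2 : (n:ℝ) * t = k := by exact_mod_cast hk'
  have habs : |(n:ℝ)| * t < 1 := by
    have hpos : (0:ℝ) < |(n:ℝ)| := by positivity
    calc |(n:ℝ)| * t < |(n:ℝ)| * (1 / |(n:ℝ)|) := by gcongr
      _ = 1 := by field_simp
  have hk3 : |(k:ℝ)| < 1 := by
    rw [← hk2, abs_mul, abs_of_pos ht3]; exact habs
  have hk4 : k = 0 := by
    have : |k| < 1 := by exact_mod_cast hk3
    simpa using Int.abs_lt_one_iff.mp this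
  rw [hk4] at hk2
  simp only [Int.cast_zero, mul_eq_zero, Int.cast_eq_zero] at hk2
  rcases hk2 with h | h
  · exact hn h
  · exact ht3.ne' h

/-- test functions supported in a small open set with prescribed vanishing coefficients -/
lemma exists_test (Z : Finset ℤ) (hZ : (0:ℤ) ∉ Z) :
    ∀ U : Set T1, IsOpen U → U.Nonempty → ∃ w : T1 → ℂ, Measurable w ∧ (∃ C : ℝ, ∀ x, ‖w x‖ ≤ C) ∧
      (∀ x, x ∉ U → w x = 0) ∧ fourierCoeff w 0 ≠ 0 ∧ ∀ n ∈ Z, fourierCoeff w n = 0 := by
  classical
  induction Z using Finset.induction_on with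
  | empty =>
    intro U hU hne
    refine ⟨U.indicator (fun _ => (1:ℂ)), measurable_const.indicator hU.measurableSet, ⟨1, ?_⟩, ?_, ?_, ?_⟩
    · intro x
      by_cases hx : x ∈ U <;> simp [hx]
    · intro x hx; simp [hx]
    · unfold fourierCoeff
      simp only [neg_zero, fourier_zero, smul_eq_mul, one_mul]
      rw [integral_indicator hU.measurableSet]
      simp only [integral_const, MeasurableSet.univ, measureReal_restrict_apply, univ_inter]
      have : 0 < mT.real U := by
        rw [measureReal_def, ENNReal.toReal_pos_iff]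
        exact ⟨hU.measure_pos _ hne, measure_lt_top _ _⟩
      simpa using this.ne'
    · simp
  | insert n Z hnZ ih =>
    intro U hU hne
    have hn0 : n ≠ 0 := by
      rintro rfl; simp at hZ
    have hZ' : (0:ℤ) ∉ Z := fun h => hZ (Finset.mem_insert_of_mem h)
    obtain ⟨x0, hx0⟩ := hne
    have hcont : Tendsto (fun p : T1 × T1 => p.1 + p.2) (𝓝 (x0, 0)) (𝓝 (x0 + 0)) :=
      (continuous_add.tendsto (x0, (0:T1)))
    rw [add_zero] at hcont
    have hmem : (fun p : T1 × T1 => p.1 + p.2) ⁻¹' U ∈ 𝓝 (x0, (0:T1)) := hcont (hU.mem_nhds hx0)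
    rw [mem_nhds_prod_iff'] at hmem
    obtain ⟨V, W, hV, hxV, hW, h0W, hVW⟩ := hmem
    obtain ⟨ε, hεW, hε1⟩ := exists_small_ne_one n hn0 W (hW.mem_nhds h0W)
    obtain ⟨w', hw'm, ⟨C, hC⟩, hw's, hw'0, hw'Z⟩ := ih hZ' V hV ⟨x0, hxV⟩
    have hVU : V ⊆ U := by
      intro x hx
      have := hVW (show ((x, 0) : T1 × T1) ∈ V ×ˢ W from ⟨hx, h0W⟩)
      simpa using this
    have hint : ∀ (u : T1 → ℂ), Measurable u → (∃ C : ℝ, ∀ x, ‖u x‖ ≤ C) → Integrable u mT := by
      intro u hu ⟨C, hC⟩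
      exact Integrable.of_bound hu.aestronglyMeasurable C (Eventually.of_forall hC)
    have hmt : Measurable (fun x => w' (x - ε)) := hw'm.comp (measurable_id.sub_const ε)
    refine ⟨fun x => w' x - fourier n ε * w' (x - ε), hw'm.sub (hmt.const_mul _), ⟨C + C, ?_⟩, ?_, ?_, ?_⟩
    · intro x
      calc ‖w' x - fourier n ε * w' (x - ε)‖ ≤ ‖w' x‖ + ‖fourier n ε * w' (x - ε)‖ := norm_sub_le _ _
        _ ≤ C + C := by
          gcongr
          · exact hC x
          · rw [norm_mul]
            have : ‖(fourier n ε : ℂ)‖ = 1 := norm_fourier_apply _ _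
            rw [this, one_mul]; exact hC _
    · intro x hx
      have h1 : x ∉ V := fun h => hx (hVU h)
      have h2 : x - ε ∉ V := by
        intro h
        apply hx
        have := hVW (show ((x - ε, ε) : T1 × T1) ∈ V ×ˢ W from ⟨h, hεW⟩)
        simpa using this
      simp [hw's x h1, hw's _ h2]
    all_goals
      have key : ∀ m : ℤ, fourierCoeff (fun x => w' x - fourier n ε * w' (x - ε)) m
          = (1 - fourier n ε * conj (fourier m ε)) * fourierCoeff w' m := by
        intro m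
        have e1 : (fun x => w' x - fourier n ε * w' (x - ε)) =
            w' + (fun x => (-(fourier n ε : ℂ)) * (fun y => w' (y - ε)) x) := by
          funext x; simp [sub_eq_add_neg]
        rw [e1, fourierCoeff.add (hint _ hw'm ⟨C, hC⟩)
          (hint _ (hmt.const_mul _) ⟨C, fun x => ?_⟩)]
        · rw [Pi.add_apply, fourierCoeff.const_mul, fourierCoeff_translate]
          ring
        · rw [norm_mul, norm_neg]
          have : ‖(fourier n ε : ℂ)‖ = 1 := norm_fourier_apply _ _
          rw [this, one_mul]; exact hC _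
    · rw [key 0]
      apply mul_ne_zero _ hw'0
      simp only [fourier_zero, map_one, mul_one]
      intro h
      exact hε1 (sub_eq_zero.mp h).symm
    · intro m hm
      rw [key m]
      rcases Finset.mem_insert.mp hm with rfl | hm
      · have : (fourier m ε : ℂ) * conj (fourier m ε) = 1 := by
          rw [Complex.mul_conj, Complex.normSq_eq_norm_sq]
          have : ‖(fourier m ε : ℂ)‖ = 1 := norm_fourier_apply _ _
          rw [this]; simp
        rw [this]; simp
      · rw [hw'Z m hm]; simp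


/-- The gap lemma: a function vanishing on an open set, whose spectrum has a long gap after `D`,
has a small mean. -/
lemma gap_lemma (D : ℕ) (U : Set T1) (hU : IsOpen U) (hne : U.Nonempty) (η : ℝ) (hη : 0 < η) :
    ∃ N : ℕ, ∀ g : Lp ℂ 2 mT, ‖g‖ ≤ 1 → (∀ᵐ x ∂mT, x ∈ U → g x = 0) →
      (∀ n : ℤ, (D:ℤ) < |n| → |n| < N → fourierCoeff g n = 0) → ‖fourierCoeff g 0‖ ≤ η := by
  classical
  obtain ⟨w, hwm, ⟨C, hC⟩, hws, hw0, hwZ⟩ := exists_test ((Finset.Icc (-(D:ℤ)) D).erase 0)
    (by simp) U hU hne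
  have hwL : MemLp w 2 mT := MemLp.of_bound hwm.aestronglyMeasurable C (Eventually.of_forall hC)
  set W : Lp ℂ 2 mT := hwL.toLp w with hW
  have hWw : W =ᵐ[mT] w := hwL.coeFn_toLp
  have hWc : ∀ n, fourierCoeff W n = fourierCoeff w n := by
    intro n; rw [fourierCoeff_congr_ae hWw]
  have hsum := hasSum_fourier_series_L2 W
  have hpos : 0 < η * ‖fourierCoeff w 0‖ := by positivity
  have hev := (Metric.tendsto_nhds.mp hsum) _ hpos
  obtain ⟨S, hS⟩ := (eventually_atTop.mp hev)
  have hS0 := hS (insert 0 S) (Finset.subset_insert _ _)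
  set S' := insert (0:ℤ) S with hS'
  set P : Lp ℂ 2 mT := ∑ i ∈ S', fourierCoeff W i • fourierLp 2 i with hP
  obtain ⟨N, hN⟩ : ∃ N : ℕ, ∀ i ∈ S', |i| < N := by
    refine ⟨(S'.sup (fun i => i.natAbs)) + 1, fun i hi => ?_⟩
    have h7 : i.natAbs ≤ S'.sup (fun i => i.natAbs) := Finset.le_sup (f := fun i : ℤ => i.natAbs) hi
    rw [Int.abs_eq_natAbs]
    exact_mod_cast Nat.lt_succ_of_le h7
  refine ⟨N, fun g hg1 hgU hgap => ?_⟩
  -- inner product of `W` and `g` vanishes
  have hin0 : inner ℂ W g = 0 := by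
    rw [L2.inner_def]
    rw [integral_eq_zero_of_ae]
    filter_upwards [hWw, hgU] with x hx1 hx2
    by_cases hxU : x ∈ U
    · simp [hx2 hxU]
    · rw [hx1, hws x hxU]; simp
  have hinP : inner ℂ P g = conj (fourierCoeff w 0) * fourierCoeff g 0 := by
    have hterm : ∀ i, inner ℂ (fourierLp 2 i : Lp ℂ 2 mT) g = fourierCoeff g i := by
      intro i
      have := fourierBasis_repr g i
      rw [HilbertBasis.repr_apply_apply] at this
      rw [← this, coe_fourierBasis]
    rw [hP, sum_inner]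
    rw [Finset.sum_eq_single (0:ℤ)]
    · rw [inner_smul_left, hterm, hWc]
    · intro i hi hi0
      rw [inner_smul_left, hterm, hWc]
      by_cases hiD : |i| ≤ D
      · have : fourierCoeff w i = 0 := by
          apply hwZ
          rw [Finset.mem_erase, Finset.mem_Icc]
          exact ⟨hi0, abs_le.mp hiD⟩
        rw [this]; simp
      · rw [hgap i (not_le.mp hiD) (hN i hi)]; simp
    · intro h; exact absurd (Finset.mem_insert_self _ _) h
  have hdiff : inner ℂ (W - P) g = - (conj (fourierCoeff w 0) * fourierCoeff g 0) := by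
    rw [inner_sub_left, hin0, hinP]; ring
  have hb : ‖fourierCoeff w 0‖ * ‖fourierCoeff g 0‖ ≤ η * ‖fourierCoeff w 0‖ := by
    calc ‖fourierCoeff w 0‖ * ‖fourierCoeff g 0‖ = ‖inner ℂ (W - P) g‖ := by
          rw [hdiff, norm_neg, norm_mul, RCLike.norm_conj]
      _ ≤ ‖W - P‖ * ‖g‖ := norm_inner_le_norm _ _
      _ ≤ ‖W - P‖ * 1 := by gcongr
      _ ≤ η * ‖fourierCoeff w 0‖ := by
        rw [mul_one, ← dist_eq_norm, dist_comm]
        exact hS0.le
  have hw0' : 0 < ‖fourierCoeff w 0‖ := by positivity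
  nlinarith


/-- A set `E` of measure `p` such that no bounded function whose spectrum is contained in the
spectrum of the indicator of `E` and which vanishes on an open set has nonzero mean. -/
theorem exists_weird_set (p : ℝ) (hp0 : 0 ≤ p) (hp1 : p ≤ 1) :
    ∃ E : Set T1, MeasurableSet E ∧ mT.real E = p ∧
      ∀ g : T1 → ℂ, Measurable g → (∀ x, ‖g x‖ ≤ 1) →
        (∀ n, fourierCoeff (E.indicator (fun _ => (1:ℂ))) n = 0 → fourierCoeff g n = 0) →
        ∀ U : Set T1, IsOpen U → U.Nonempty → (∀ x ∈ U, g x = 0) → fourierCoeff g 0 = 0 := by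
  classical
  obtain ⟨B, hB⟩ : ∃ B : ℕ → Set T1, TopologicalSpace.countableBasis T1 = range B :=
    (TopologicalSpace.countable_countableBasis T1).exists_eq_range
      (by
        obtain ⟨V, hV, _, _⟩ := (TopologicalSpace.isBasis_countableBasis T1).exists_subset_of_mem_open
          (mem_univ (0:T1)) isOpen_univ
        exact ⟨V, hV⟩)
  have hBo : ∀ j, IsOpen (B j) := fun j =>
    TopologicalSpace.isOpen_of_mem_countableBasis (by rw [hB]; exact mem_range_self j)
  have hBn : ∀ j, (B j).Nonempty := fun j =>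
    TopologicalSpace.nonempty_of_mem_countableBasis (by rw [hB]; exact mem_range_self j)
  choose N hN using fun (k D j : ℕ) => gap_lemma D (B j) (hBo j) (hBn j) (1 / ((k:ℝ) + 1))
    (by positivity)
  obtain ⟨E, D, hEm, hEp, hE⟩ := exists_gap_set
    (fun k D => (Finset.range (k+1)).sup (fun j => N k D j)) p hp0 hp1
  refine ⟨E, hEm, hEp, ?_⟩
  intro g hgm hg1 hgs U hU hUn hgU
  obtain ⟨x0, hx0⟩ := hUn
  obtain ⟨V, hV, hxV, hVU⟩ := (TopologicalSpace.isBasis_countableBasis T1).exists_subset_of_mem_open hx0 hU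
  rw [hB] at hV
  obtain ⟨j, rfl⟩ := hV
  have hgL : MemLp g 2 mT := MemLp.of_bound hgm.aestronglyMeasurable 1 (Eventually.of_forall hg1)
  set g' : Lp ℂ 2 mT := hgL.toLp g with hg'
  have hgg' : g' =ᵐ[mT] g := hgL.coeFn_toLp
  have hgc : ∀ n, fourierCoeff g' n = fourierCoeff g n := by
    intro n; rw [fourierCoeff_congr_ae hgg']
  have hnorm : ‖g'‖ ≤ 1 := by
    have h1 := Lp.norm_le_of_ae_bound (f := g') (C := 1) (by norm_num) (by
      filter_upwards [hgg'] with x hx; rw [hx]; exact hg1 x)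
    have h2 : measureUnivNNReal mT = 1 := by
      unfold measureUnivNNReal; simp
    rw [h2] at h1
    simpa using h1
  have key : ∀ k, j ≤ k → ‖fourierCoeff g 0‖ ≤ 1 / ((k:ℝ) + 1) := by
    intro k hk
    rw [← hgc]
    apply hN k (D k) j g' hnorm
    · filter_upwards [hgg'] with x hx hxj
      rw [hx]; exact hgU x (hVU hxj)
    · intro n hn1 hn2
      rw [hgc]
      apply hgs
      apply hE k n hn1
      have hle : N k (D k) j ≤ (Finset.range (k+1)).sup (fun j => N k (D k) j) :=
        Finset.le_sup (f := fun j => N k (D k) j) (Finset.mem_range.mpr (by omega))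
      exact lt_of_lt_of_le hn2 (by exact_mod_cast hle)
  have hlim : Tendsto (fun k : ℕ => 1 / ((k:ℝ) + 1)) atTop (𝓝 0) := tendsto_one_div_add_atTop_nhds_zero_nat
  have h0 : ‖fourierCoeff g 0‖ ≤ 0 :=
    ge_of_tendsto hlim ((eventually_ge_atTop j).mono key)
  exact norm_le_zero_iff.mp h0

end

end Pool.Agent.LibRCS
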