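import Pool.Agent.LibRCS.Basic
import Pool.Agent.LibRCS.Gap

open MeasureTheory AddCircle Filter Set
open scoped Topology ENNReal ComplexConjugate symmDiff

namespace Pool.Agent.LibRCS

noncomputable section

/-- Fourier coefficients of sections of a measurable set -/
def secCoeff {Ω : Type*} (B : Set (Ω × T1)) (n : ℤ) (ω : Ω) : ℂ :=
  fourierCoeff (fun t => B.indicator (fun _ => (1:ℂ)) (ω, t)) n

lemma secCoeff_meas {Ω : Type*} [MeasurableSpace Ω] (B : Set (Ω × T1)) (hB : MeasurableSet B) (n : ℤ) :
    StronglyMeasurable (secCoeff B n) := by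
  unfold secCoeff fourierCoeff
  apply StronglyMeasurable.integral_prod_right
    (f := fun (ω : Ω) (t : T1) => fourier (-n) t • B.indicator (fun _ => (1:ℂ)) (ω, t))
  apply Measurable.stronglyMeasurable
  change Measurable (fun q : Ω × T1 => fourier (-n) q.2 * B.indicator (fun _ => (1:ℂ)) q)
  apply Measurable.mul
  · exact ((fourier (-n) : C(T1, ℂ)).continuous.measurable).comp measurable_snd
  · exact (measurable_const.indicator hB)

/-- the mean square of the random Fourier coefficient is determined by the two point function -/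
lemma two_point {Ω : Type*} [MeasurableSpace Ω] (P : Measure Ω) [IsProbabilityMeasure P]
    (B : Set (Ω × T1)) (hB : MeasurableSet B) (n : ℤ) :
    ∫ ω, ((‖secCoeff B n ω‖ ^ 2 : ℝ) : ℂ) ∂P
      = ∫ q : T1 × T1, fourier (-n) q.1 * conj (fourier (-n) q.2) *
          ((P.real {ω | (ω, q.1) ∈ B ∧ (ω, q.2) ∈ B} : ℝ) : ℂ) ∂(mT.prod mT) := by
  set φ : Ω → T1 → ℂ := fun ω t => fourier (-n) t * B.indicator (fun _ => (1:ℂ)) (ω, t) with hφ
  have h1 : ∀ ω, ((‖secCoeff B n ω‖ ^ 2 : ℝ) : ℂ)
      = ∫ q : T1 × T1, φ ω q.1 * conj (φ ω q.2) ∂(mT.prod mT) := by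
    intro ω
    rw [integral_prod_mul (φ ω) (fun t => conj (φ ω t)), integral_conj]
    have : ∫ t, φ ω t ∂mT = secCoeff B n ω := by
      unfold secCoeff fourierCoeff
      rfl
    rw [this, Complex.mul_conj, Complex.normSq_eq_norm_sq]
  simp_rw [h1]
  have hmφ : Measurable (fun q : Ω × T1 => φ q.1 q.2) := by
    apply Measurable.mul
    · exact ((fourier (-n) : C(T1, ℂ)).continuous.measurable).comp measurable_snd
    · exact measurable_const.indicator hB
  have hm : Measurable (fun r : Ω × (T1 × T1) => φ r.1 r.2.1 * conj (φ r.1 r.2.2)) := by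
    apply Measurable.mul
    · exact hmφ.comp (measurable_fst.prodMk (measurable_fst.comp measurable_snd))
    · exact Complex.continuous_conj.measurable.comp
        (hmφ.comp (measurable_fst.prodMk (measurable_snd.comp measurable_snd)))
  have hφ1 : ∀ ω t, ‖φ ω t‖ ≤ 1 := by
    intro ω t
    rw [hφ]
    simp only [norm_mul]
    rw [norm_fourier_apply, one_mul]
    by_cases h : (ω, t) ∈ B <;> simp [h]
  have hint : Integrable (Function.uncurry fun (ω : Ω) (q : T1 × T1) => φ ω q.1 * conj (φ ω q.2))
      (P.prod (mT.prod mT)) := by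
    refine Integrable.of_bound hm.aestronglyMeasurable 1 (Eventually.of_forall ?_)
    intro r
    simp only [Function.uncurry]
    rw [norm_mul, RCLike.norm_conj]
    calc ‖φ r.1 r.2.1‖ * ‖φ r.1 r.2.2‖ ≤ 1 * 1 := by
          gcongr
          · exact hφ1 _ _
          · exact hφ1 _ _
      _ = 1 := one_mul 1
  rw [integral_integral_swap hint]
  congr 1
  funext q
  have h2 : ∀ ω, φ ω q.1 * conj (φ ω q.2) = (fourier (-n) q.1 * conj (fourier (-n) q.2)) *
      ({ω | (ω, q.1) ∈ B ∧ (ω, q.2) ∈ B}.indicator (fun _ => (1:ℂ)) ω) := by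
    intro ω
    rw [hφ]
    by_cases h1 : (ω, q.1) ∈ B <;> by_cases h2 : (ω, q.2) ∈ B <;> simp [h1, h2]
  simp_rw [h2]
  rw [integral_const_mul]
  congr 1
  have hBs : MeasurableSet {ω | (ω, q.1) ∈ B ∧ (ω, q.2) ∈ B} :=
    (measurable_prodMk_right hB).inter (measurable_prodMk_right hB)
  rw [integral_indicator hBs]
  simp [measureReal_restrict_apply]


/-- representative in `[0,1)` -/
def rep (t : T1) : ℝ := (AddCircle.equivIco (1:ℝ) 0 t : ℝ)

lemma measurable_rep : Measurable rep :=
  measurable_subtype_coe.comp (AddCircle.measurableEquivIco (1:ℝ) 0).measurable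

lemma coe_rep (t : T1) : ((rep t : ℝ) : T1) = t := AddCircle.coe_equivIco

lemma rep_coe (r : ℝ) (hr : r ∈ Ico (0:ℝ) 1) : rep (r : T1) = r := by
  unfold rep
  exact AddCircle.equivIco_coe_of_mem (by simpa using hr)

/-- the autocorrelation function of `E` -/
def autoc (E : Set T1) (h : T1) : ℝ := mT.real {z | z + h ∈ E ∧ z ∈ E}

lemma autoc_continuous (E : Set T1) (hE : MeasurableSet E) : Continuous (autoc E) := by
  rw [continuous_iff_continuousAt]
  intro h0
  set f : T1 → C(T1, T1) := fun h => ⟨fun z => z + h, by fun_prop⟩ with hf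
  have hfc : Continuous f := by
    apply ContinuousMap.continuous_of_continuous_uncurry
    exact continuous_snd.add continuous_fst
  have hfm : ∀ h, MeasurePreserving (f h) mT mT := fun h => measurePreserving_add_right mT h
  have hlim := tendsto_measure_symmDiff_preimage_nhds_zero (μ := mT) (ν := mT) (hfc.tendsto h0)
    (Eventually.of_forall hfm) (hfm h0) hE.nullMeasurableSet (measure_ne_top _ _)
  have hlim' : Tendsto (fun a => mT.real ((f a ⁻¹' E) ∆ (f h0 ⁻¹' E))) (𝓝 h0) (𝓝 0) := by
    have := (ENNReal.tendsto_toReal ENNReal.zero_ne_top).comp hlim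
    simpa [Function.comp_def, measureReal_def] using this
  have hb : ∀ a, |autoc E a - autoc E h0| ≤ mT.real ((f a ⁻¹' E) ∆ (f h0 ⁻¹' E)) := by
    intro a
    have e1 : ∀ h, autoc E h = mT.real (f h ⁻¹' E ∩ E) := fun h => rfl
    rw [e1, e1]
    have hmeas : ∀ h, MeasurableSet (f h ⁻¹' E) := fun h => (hfm h).measurable hE
    have key : ∀ A B : Set T1, MeasurableSet A → MeasurableSet B →
        mT.real (A ∩ E) ≤ mT.real (B ∩ E) + mT.real (A ∆ B) := by
      intro A B _ _
      calc mT.real (A ∩ E) ≤ mT.real ((B ∩ E) ∪ (A ∆ B)) := by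
            apply measureReal_mono _ (measure_ne_top _ _)
            intro x hx
            by_cases hxB : x ∈ B
            · left; exact ⟨hxB, hx.2⟩
            · right; left; exact ⟨hx.1, hxB⟩
        _ ≤ _ := measureReal_union_le _ _
    rw [abs_le]
    constructor
    · have := key _ _ (hmeas h0) (hmeas a)
      rw [symmDiff_comm] at this
      linarith
    · have := key _ _ (hmeas a) (hmeas h0)
      linarith
  rw [ContinuousAt, tendsto_iff_dist_tendsto_zero]
  apply squeeze_zero (fun _ => dist_nonneg) _ hlim'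
  intro a
  rw [Real.dist_eq]
  exact hb a

/-- the shifted random set -/
def shiftSet (E : Set T1) : Set (T1 × T1) := {q | q.1 + q.2 ∈ E}

lemma measurable_shiftSet (E : Set T1) (hE : MeasurableSet E) : MeasurableSet (shiftSet E) :=
  (measurable_fst.add measurable_snd) hE

lemma shift_two_point (E : Set T1) (hE : MeasurableSet E) (s t : T1) :
    mT.real {z | z + s ∈ E ∧ z + t ∈ E} = autoc E (s - t) := by
  unfold autoc
  have h := (measurePreserving_add_right mT t).measureReal_preimage
    (s := {z | z + (s - t) ∈ E ∧ z ∈ E}) (by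
      apply MeasurableSet.nullMeasurableSet
      exact ((measurable_add_const _) hE).inter hE)
  rw [← h]
  congr 1
  ext z
  simp only [mem_ofPred_eq, mem_preimage]
  rw [show z + t + (s - t) = z + s by abel]

lemma shift_secCoeff (E : Set T1) (n : ℤ) (z : T1) :
    secCoeff (shiftSet E) n z = fourier n z * fourierCoeff (E.indicator (fun _ => (1:ℂ))) n := by
  unfold secCoeff
  have : (fun t => (shiftSet E).indicator (fun _ => (1:ℂ)) (z, t))
      = fun t => (E.indicator (fun _ => (1:ℂ))) (t - (-z)) := by
    funext t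
    by_cases h : z + t ∈ E
    · have h1 : (z, t) ∈ shiftSet E := h
      have h2 : t - (-z) ∈ E := by rwa [sub_neg_eq_add, add_comm]
      rw [indicator_of_mem h1, indicator_of_mem h2]
    · have h1 : (z, t) ∉ shiftSet E := h
      have h2 : t - (-z) ∉ E := by rwa [sub_neg_eq_add, add_comm]
      rw [indicator_of_notMem h1, indicator_of_notMem h2]
  rw [this, fourierCoeff_translate]
  congr 1
  rw [← fourier_neg, fourier_apply, fourier_apply]
  congr 2
  simp

/-- no random closed set has the autocorrelation of the weird set as its two point function -/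
theorem no_closed (d : ℕ) (hd : 0 < d) (p : ℝ) (hp0 : 0 < p) (hp1 : p < 1) (E : Set T1)
    (hE : MeasurableSet E) (hEp : mT.real E = p)
    (hW : ∀ g : T1 → ℂ, Measurable g → (∀ x, ‖g x‖ ≤ 1) →
        (∀ n, fourierCoeff (E.indicator (fun _ => (1:ℂ))) n = 0 → fourierCoeff g n = 0) →
        ∀ U : Set T1, IsOpen U → U.Nonempty → (∀ x ∈ U, g x = 0) → fourierCoeff g 0 = 0)
    (μ : Measure (ClosedSubset d)) [IsProbabilityMeasure μ]
    (hμ : ∀ x y : EuclideanSpace ℝ (Fin d), μ.real {F | x ∈ F.carrier ∧ y ∈ F.carrier}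
      = autoc E ((x - y) ⟨0, hd⟩ : ℝ)) : False := by
  classical
  set e : ℝ → EuclideanSpace ℝ (Fin d) := fun r => EuclideanSpace.single ⟨0, hd⟩ r with he
  have hec : Continuous e := by
    rw [he]
    have h1 : Continuous (fun r : ℝ => (Pi.single (⟨0, hd⟩ : Fin d) r : Fin d → ℝ)) := by
      apply continuous_pi
      intro i
      by_cases hi : i = ⟨0, hd⟩
      · subst hi; simpa using continuous_id'
      · simpa [Pi.single_apply, hi] using continuous_const
    exact (PiLp.continuous_toLp 2 (fun _ : Fin d => ℝ)).comp h1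
  set B : Set (ClosedSubset d × T1) := {q | e (rep q.2) ∈ q.1.carrier} with hB
  have hBm : MeasurableSet B := by
    have : Measurable (fun q : ClosedSubset d × T1 => (q.1, e (rep q.2))) :=
      measurable_fst.prodMk (hec.measurable.comp (measurable_rep.comp measurable_snd))
    exact this measurableSet_graph
  have htp : ∀ s t : T1, μ.real {F | (F, s) ∈ B ∧ (F, t) ∈ B} = autoc E (s - t) := by
    intro s t
    have h := hμ (e (rep s)) (e (rep t))
    have h2 : ((e (rep s) - e (rep t)) ⟨0, hd⟩ : ℝ) = rep s - rep t := by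
      simp [he]
    rw [h2] at h
    rw [show ((rep s - rep t : ℝ) : T1) = s - t by
      rw [AddCircle.coe_sub, coe_rep, coe_rep]] at h
    exact h
  have hms : ∀ n : ℤ, ∫ F, ((‖secCoeff B n F‖ ^ 2 : ℝ) : ℂ) ∂μ
      = ((‖fourierCoeff (E.indicator (fun _ => (1:ℂ))) n‖ ^ 2 : ℝ) : ℂ) := by
    intro n
    rw [two_point μ B hBm n]
    have h2 := two_point mT (shiftSet E) (measurable_shiftSet E hE) n
    have h3 : ∀ z, ((‖secCoeff (shiftSet E) n z‖ ^ 2 : ℝ) : ℂ)
        = ((‖fourierCoeff (E.indicator (fun _ => (1:ℂ))) n‖ ^ 2 : ℝ) : ℂ) := by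
      intro z
      rw [shift_secCoeff, norm_mul, norm_fourier_apply, one_mul]
    simp_rw [h3] at h2
    rw [integral_const, probReal_univ, one_smul] at h2
    rw [h2]
    congr 1
    funext q
    congr 2
    rw [htp]
    exact (shift_two_point E hE q.1 q.2).symm
  -- reality version
  have hb1 : ∀ n F, ‖secCoeff B n F‖ ≤ 1 := by
    intro n F
    unfold secCoeff fourierCoeff
    calc ‖∫ t, fourier (-n) t • B.indicator (fun _ => (1:ℂ)) (F, t) ∂mT‖
        ≤ 1 * mT.real univ := by
          apply norm_integral_le_of_norm_le_const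
          filter_upwards with t
          rw [norm_smul, norm_fourier_apply, one_mul]
          by_cases h : (F, t) ∈ B <;> simp [h]
      _ = 1 := by simp
  have hintsq : ∀ n, Integrable (fun F => ‖secCoeff B n F‖ ^ 2) μ := by
    intro n
    refine Integrable.of_bound ((secCoeff_meas B hBm n).norm.measurable.pow_const 2).aestronglyMeasurable 1
      (Eventually.of_forall (fun F => ?_))
    rw [Real.norm_eq_abs, abs_of_nonneg (by positivity)]
    exact pow_le_one₀ (norm_nonneg _) (hb1 n F)
  have hmsr : ∀ n : ℤ, ∫ F, ‖secCoeff B n F‖ ^ 2 ∂μ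
      = ‖fourierCoeff (E.indicator (fun _ => (1:ℂ))) n‖ ^ 2 := by
    intro n
    have h1 := hms n
    have h2 := integral_ofReal (μ := μ) (𝕜 := ℂ) (f := fun F => ‖secCoeff B n F‖ ^ 2)
    have h3 : ((∫ F, ‖secCoeff B n F‖ ^ 2 ∂μ : ℝ) : ℂ)
      = ((‖fourierCoeff (E.indicator (fun _ => (1:ℂ))) n‖ ^ 2 : ℝ) : ℂ) := by
      rw [← h1]; exact h2.symm
    exact Complex.ofReal_injective h3
  -- almost surely the spectrum is contained in that of `E`
  have hspec : ∀ᵐ F ∂μ, ∀ n : ℤ, fourierCoeff (E.indicator (fun _ => (1:ℂ))) n = 0 → secCoeff B n F = 0 := by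
    rw [ae_all_iff]
    intro n
    by_cases hn : fourierCoeff (E.indicator (fun _ => (1:ℂ))) n = 0
    · have h1 := hmsr n
      rw [hn] at h1
      simp only [norm_zero, ne_eq, OfNat.ofNat_ne_zero, not_false_eq_true, zero_pow] at h1
      have h2 := (integral_eq_zero_iff_of_nonneg (fun F => by positivity) (hintsq n)).mp h1
      filter_upwards [h2] with F hF _
      simpa using hF
    · filter_upwards with F h
      exact absurd h hn
  -- the zeroth coefficient
  have h01 : ∀ᵐ F ∂μ, secCoeff B 0 F = 0 ∨ secCoeff B 0 F = 1 := by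
    filter_upwards [hspec] with F hF
    by_cases hU : ∃ r ∈ Ioo (0:ℝ) 1, e r ∉ F.carrier
    · left
      obtain ⟨r0, hr0, hr0F⟩ := hU
      have hgm : Measurable (fun t => B.indicator (fun _ => (1:ℂ)) (F, t)) :=
        (measurable_const.indicator hBm).comp measurable_prodMk_left
      apply hW (fun t => B.indicator (fun _ => (1:ℂ)) (F, t)) hgm _ hF
        ((fun r : ℝ => (r : T1)) '' (Ioo (0:ℝ) 1 ∩ e ⁻¹' (F.carrier)ᶜ))
      · apply QuotientAddGroup.isOpenMap_coe
        exact isOpen_Ioo.inter (F.isClosed.isOpen_compl.preimage hec)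
      · exact ⟨(r0 : T1), r0, ⟨hr0, hr0F⟩, rfl⟩
      · rintro _ ⟨r, ⟨hr, hrF⟩, rfl⟩
        have : (F, (r : T1)) ∉ B := by
          rw [hB]
          simp only [mem_ofPred_eq]
          rw [rep_coe r ⟨hr.1.le, hr.2⟩]
          exact hrF
        exact indicator_of_notMem this _
      · intro t
        by_cases h : (F, t) ∈ B <;> simp [h]
    · right
      push Not at hU
      unfold secCoeff fourierCoeff
      have hae : (fun t => fourier (-0) t • B.indicator (fun _ => (1:ℂ)) (F, t)) =ᵐ[mT] fun _ => 1 := by
        have h0 : ∀ᵐ t ∂mT, t ≠ (0 : T1) := by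
          rw [ae_iff]
          have h1 : (volume : Measure T1) {0} = 0 := by
            have := AddCircle.volume_closedBall (T := 1) (x := 0) (ε := 0)
            simpa [Metric.closedBall_zero] using this
          rw [AddCircle.volume_eq_smul_haarAddCircle] at h1
          simpa using h1
        filter_upwards [h0] with t ht
        have hrt : rep t ∈ Ioo (0:ℝ) 1 := by
          have h1 : rep t ∈ Ico (0:ℝ) 1 := by
            have := (AddCircle.equivIco (1:ℝ) 0 t).2
            simpa [rep] using this
          refine ⟨lt_of_le_of_ne h1.1 ?_, h1.2⟩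
          intro h
          apply ht
          rw [← coe_rep t, ← h]
          simp
        have : (F, t) ∈ B := hU _ hrt
        simp [this]
      rw [integral_congr_ae hae]
      simp
  -- first moment
  have hint1 : ∫ F, ‖secCoeff B 0 F‖ ∂μ = p := by
    have hsec : ∀ F, ‖secCoeff B 0 F‖ = ∫ t, B.indicator (fun _ => (1:ℝ)) (F, t) ∂mT := by
      intro F
      have h1 : secCoeff B 0 F = ((∫ t, B.indicator (fun _ => (1:ℝ)) (F, t) ∂mT : ℝ) : ℂ) := by
        have h2 := integral_ofReal (μ := mT) (𝕜 := ℂ) (f := fun t => B.indicator (fun _ => (1:ℝ)) (F, t))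
        unfold secCoeff fourierCoeff
        refine Eq.trans ?_ h2
        congr 1
        funext t
        by_cases h : (F, t) ∈ B <;> simp [h]
      rw [h1, Complex.norm_real, Real.norm_eq_abs, abs_of_nonneg]
      apply integral_nonneg
      intro t
      by_cases h : (F, t) ∈ B <;> simp [h]
    simp_rw [hsec]
    have hint : Integrable (Function.uncurry fun (F : ClosedSubset d) (t : T1) =>
        B.indicator (fun _ => (1:ℝ)) (F, t)) (μ.prod mT) := by
      refine Integrable.of_bound (measurable_const.indicator hBm).aestronglyMeasurable 1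
        (Eventually.of_forall ?_)
      intro q
      simp only [Function.uncurry]
      by_cases h : (q.1, q.2) ∈ B <;> simp [h]
    rw [integral_integral_swap hint]
    have h5 : ∀ t : T1, ∫ F, B.indicator (fun _ => (1:ℝ)) (F, t) ∂μ = p := by
      intro t
      have h6 : ∀ F, B.indicator (fun _ => (1:ℝ)) (F, t)
          = ({F | (F, t) ∈ B ∧ (F, t) ∈ B}.indicator (fun _ => (1:ℝ)) F) := by
        intro F
        by_cases h : (F, t) ∈ B <;> simp [h]
      simp_rw [h6]
      have hBs : MeasurableSet {F | (F, t) ∈ B ∧ (F, t) ∈ B} :=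
        (measurable_prodMk_right hBm).inter (measurable_prodMk_right hBm)
      rw [integral_indicator hBs]
      simp only [integral_const, MeasurableSet.univ, measureReal_restrict_apply, univ_inter, smul_eq_mul, mul_one]
      have h7 := htp t t
      rw [sub_self] at h7
      have h8 : autoc E 0 = p := by
        unfold autoc
        rw [← hEp]
        congr 1
        ext z; simp
      rw [← h8, ← h7]
    simp_rw [h5]
    simp
  have hsq : ∫ F, ‖secCoeff B 0 F‖ ^ 2 ∂μ = ∫ F, ‖secCoeff B 0 F‖ ∂μ := by
    apply integral_congr_ae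
    filter_upwards [h01] with F hF
    rcases hF with h | h <;> simp [h]
  rw [hmsr 0, hint1] at hsq
  have hE0 : ‖fourierCoeff (E.indicator (fun _ => (1:ℂ))) 0‖ = p := by
    unfold fourierCoeff
    simp only [neg_zero, fourier_zero, one_smul]
    rw [integral_indicator hE]
    simp only [integral_const, MeasurableSet.univ, measureReal_restrict_apply, univ_inter]
    have : mT.real E = p := hEp
    rw [norm_smul, norm_one, mul_one, Real.norm_eq_abs]
    change |mT.real E| = p
    rw [this, abs_of_pos hp0]
  rw [hE0] at hsq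
  nlinarith

end

end Pool.Agent.LibRCS
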