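import Pool.Agent.LibRCS.Basic

open Set MeasureTheory Filter
open scoped Topology ENNReal

namespace Pool.Agent.LibRCS

/-- abbreviation for `ℝ^d` -/
abbrev Eu (d : ℕ) : Type := EuclideanSpace ℝ (Fin d)

variable {d : ℕ}

lemma nhds_fell (L : ClosedSubset d) (f : Filter (ClosedSubset d))
    (h1 : ∀ K : Set (Eu d), IsCompact K → L.carrier ∩ K = ∅ → {F : ClosedSubset d | F.carrier ∩ K = ∅} ∈ f)
    (h2 : ∀ U : Set (Eu d), IsOpen U → (L.carrier ∩ U).Nonempty →
      {F : ClosedSubset d | (F.carrier ∩ U).Nonempty} ∈ f) : f ≤ 𝓝 L := by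
  have hn := TopologicalSpace.nhds_generateFrom
    (g := ({s | ∃ K : Set (Eu d), IsCompact K ∧ s = {F | F.carrier ∩ K = ∅}} ∪
      {s | ∃ U : Set (Eu d), IsOpen U ∧ s = {F : ClosedSubset d | (F.carrier ∩ U).Nonempty}}))
    (a := L)
  rw [show @nhds _ (instTopClosedSubset d) L = _ from hn]
  refine le_iInf₂ fun s hs => le_principal_iff.mpr ?_
  obtain ⟨hsL, ⟨K, hK, rfl⟩ | ⟨U, hU, rfl⟩⟩ := hs
  · exact h1 K hK hsL
  · exact h2 U hU hsL

/-- compactness of the Fell topology -/
instance instCompactClosedSubset : CompactSpace (ClosedSubset d) := by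
  constructor
  rw [isCompact_iff_ultrafilter_le_nhds]
  intro 𝒰 _
  set L : Set (Eu d) := {x | ∀ U : Set (Eu d), IsOpen U → x ∈ U →
    {F : ClosedSubset d | (F.carrier ∩ U).Nonempty} ∈ 𝒰} with hL
  have hLc : IsClosed L := by
    rw [← isOpen_compl_iff, isOpen_iff_forall_mem_open]
    intro x hx
    simp only [hL, mem_compl_iff, mem_ofPred_eq, not_forall] at hx
    obtain ⟨U, hU, hxU, hn⟩ := hx
    refine ⟨U, ?_, hU, hxU⟩
    intro y hy hyL
    exact hn (hyL U hU hy)
  refine ⟨⟨L, hLc⟩, mem_univ _, nhds_fell _ _ ?_ ?_⟩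
  · -- misses a compact set
    intro K hK hsL
    have h1 : ∀ x ∈ K, ∃ U : Set (Eu d), IsOpen U ∧ x ∈ U ∧
        {F : ClosedSubset d | F.carrier ∩ U = ∅} ∈ 𝒰 := by
      intro x hx
      have hxL : x ∉ L := by
        intro h
        have : x ∈ (∅ : Set (Eu d)) := by
          rw [← (show L ∩ K = ∅ from hsL)]; exact ⟨h, hx⟩
        exact this
      simp only [hL, mem_ofPred_eq, not_forall] at hxL
      obtain ⟨U, hU, hxU, hn⟩ := hxL
      refine ⟨U, hU, hxU, ?_⟩
      have : {F : ClosedSubset d | F.carrier ∩ U = ∅} = {F | (F.carrier ∩ U).Nonempty}ᶜ := by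
        ext F; simp [Set.not_nonempty_iff_eq_empty]
      rw [this]
      exact Ultrafilter.compl_mem_iff_notMem.mpr hn
    choose! U hU hxU hmiss using h1
    obtain ⟨t, ht⟩ := hK.elim_nhds_subcover' (fun x _ => U x) (fun x hx => (hU x hx).mem_nhds (hxU x hx))
    have h2 : (⋂ x ∈ t, {F : ClosedSubset d | F.carrier ∩ U x = ∅}) ∈ (𝒰 : Filter (ClosedSubset d)) := by
      rw [Filter.biInter_finset_mem]
      intro x _
      exact hmiss x x.2
    filter_upwards [h2] with F hF
    simp only [mem_iInter, mem_ofPred_eq] at hF ⊢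
    rw [Set.eq_empty_iff_forall_notMem]
    rintro y ⟨hyF, hyK⟩
    have := ht hyK
    simp only [mem_iUnion] at this
    obtain ⟨x, hx, hy⟩ := this
    have h3 := hF x hx
    rw [Set.eq_empty_iff_forall_notMem] at h3
    exact h3 y ⟨hyF, hy⟩
  · intro U hU ⟨x, hxL, hxU⟩
    exact hxL U hU hxU

/-- the Hausdorff property -/
instance instT2ClosedSubset : T2Space (ClosedSubset d) := by
  constructor
  have key : ∀ F G : ClosedSubset d, (∃ x ∈ F.carrier, x ∉ G.carrier) →
      ∃ U V : Set (ClosedSubset d), IsOpen U ∧ IsOpen V ∧ F ∈ U ∧ G ∈ V ∧ Disjoint U V := by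
    rintro F G ⟨x, hxF, hxG⟩
    obtain ⟨ε, hε, hball⟩ := Metric.isOpen_iff.mp G.isClosed.isOpen_compl x hxG
    refine ⟨{H | (H.carrier ∩ Metric.ball x (ε/2)).Nonempty},
      {H | H.carrier ∩ Metric.closedBall x (ε/2) = ∅}, isOpen_hit _ Metric.isOpen_ball,
      isOpen_miss _ (isCompact_closedBall _ _), ⟨x, hxF, Metric.mem_ball_self (by positivity)⟩, ?_, ?_⟩
    · simp only [mem_ofPred_eq]
      rw [Set.eq_empty_iff_forall_notMem]
      rintro y ⟨hyG, hy⟩
      exact hball (Metric.closedBall_subset_ball (by linarith) hy) hyG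
    · rw [Set.disjoint_left]
      rintro H ⟨y, hyH, hy⟩ hH
      simp only [mem_ofPred_eq] at hH
      rw [Set.eq_empty_iff_forall_notMem] at hH
      exact hH y ⟨hyH, Metric.ball_subset_closedBall hy⟩
  intro F G hFG
  have hne : F.carrier ≠ G.carrier := by
    intro h; apply hFG
    cases F; cases G; simpa using h
  by_cases h : ∃ x ∈ F.carrier, x ∉ G.carrier
  · exact key F G h
  · push Not at h
    have h2 : ∃ x ∈ G.carrier, x ∉ F.carrier := by
      by_contra hcon
      push Not at hcon
      exact hne (Subset.antisymm h hcon)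
    obtain ⟨U, V, hU, hV, hGU, hFV, hd⟩ := key G F h2
    exact ⟨V, U, hV, hU, hFV, hGU, hd.symm⟩

/-- the distance of a point to a closed set is continuous for the Fell topology -/
lemma continuous_infEDist' (x : Eu d) :
    Continuous (fun F : ClosedSubset d => Metric.infEDist x F.carrier) := by
  rw [OrderTopology.continuous_iff]
  intro a
  constructor
  · by_cases ha : a = ⊤
    · have : (fun F : ClosedSubset d => Metric.infEDist x F.carrier) ⁻¹' Ioi a = ∅ := by
        ext F; simp [ha]
      rw [this]; exact isOpen_empty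
    · have : (fun F : ClosedSubset d => Metric.infEDist x F.carrier) ⁻¹' Ioi a
          = {F | F.carrier ∩ Metric.closedBall x a.toReal = ∅} := by
        ext F
        simp only [mem_preimage, mem_Ioi, mem_ofPred_eq]
        constructor
        · intro h
          rw [Set.eq_empty_iff_forall_notMem]
          rintro y ⟨hyF, hy⟩
          have h1 : Metric.infEDist x F.carrier ≤ edist x y := Metric.infEDist_le_edist_of_mem hyF
          have h2 : edist x y ≤ a := by
            rw [edist_dist, dist_comm]
            exact ENNReal.ofReal_le_of_le_toReal (Metric.mem_closedBall.mp hy)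
          exact absurd (h1.trans h2) (not_le.mpr h)
        · intro h
          by_contra hcon
          rw [not_lt] at hcon
          have hne : F.carrier.Nonempty := by
            rw [Set.nonempty_iff_ne_empty]
            intro h0
            rw [h0, Metric.infEDist_empty] at hcon
            exact ha (top_le_iff.mp hcon)
          obtain ⟨y, hyF, hy⟩ := F.isClosed.exists_infDist_eq_dist hne x
          have hle : dist x y ≤ a.toReal := by
            rw [← hy]
            exact ENNReal.toReal_mono ha hcon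
          rw [Set.eq_empty_iff_forall_notMem] at h
          exact h y ⟨hyF, by rw [Metric.mem_closedBall, dist_comm]; exact hle⟩
      rw [this]
      exact isOpen_miss _ (isCompact_closedBall _ _)
  · have : (fun F : ClosedSubset d => Metric.infEDist x F.carrier) ⁻¹' Iio a
          = {F | (F.carrier ∩ Metric.eball x a).Nonempty} := by
      ext F
      simp only [mem_preimage, mem_Iio, mem_ofPred_eq]
      rw [Metric.infEDist_lt_iff]
      constructor
      · rintro ⟨y, hyF, hy⟩
        exact ⟨y, hyF, by rw [Metric.mem_eball, edist_comm]; exact hy⟩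
      · rintro ⟨y, hyF, hy⟩
        exact ⟨y, hyF, by rw [edist_comm]; exact Metric.mem_eball.mp hy⟩
    rw [this]
    exact isOpen_hit _ Metric.isOpen_eball

/-- second countability -/
instance instSecondCountableClosedSubset : SecondCountableTopology (ClosedSubset d) := by
  set B := TopologicalSpace.countableBasis (Eu d) with hB
  have hBc : B.Countable := TopologicalSpace.countable_countableBasis _
  have hBb := TopologicalSpace.isBasis_countableBasis (Eu d)
  set D := TopologicalSpace.denseSeq (Eu d) with hD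
  have hDd : DenseRange D := TopologicalSpace.denseRange_denseSeq _
  -- finite unions of closed balls with rational data
  set KK : Finset (ℕ × ℕ) → Set (Eu d) := fun s => ⋃ q ∈ s, Metric.closedBall (D q.1) (1 / ((q.2:ℝ) + 1))
    with hKK
  have hKKc : ∀ s, IsCompact (KK s) := fun s => s.isCompact_biUnion (fun q _ => isCompact_closedBall _ _)
  set g : Set (Set (ClosedSubset d)) := (range fun s : Finset (ℕ × ℕ) => {F | F.carrier ∩ KK s = ∅}) ∪
    ((fun U : Set (Eu d) => {F : ClosedSubset d | (F.carrier ∩ U).Nonempty}) '' B) with hg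
  refine ⟨⟨g, (countable_range _).union (hBc.image _), ?_⟩⟩
  apply le_antisymm
  · apply le_generateFrom
    rintro s (⟨t, rfl⟩ | ⟨U, hU, rfl⟩)
    · exact isOpen_miss _ (hKKc t)
    · exact isOpen_hit _ (hBb.isOpen hU)
  · change TopologicalSpace.generateFrom g ≤ TopologicalSpace.generateFrom _
    apply le_generateFrom
    let _ : TopologicalSpace (ClosedSubset d) := TopologicalSpace.generateFrom g
    rintro s (⟨K, hK, rfl⟩ | ⟨U, hU, rfl⟩)
    · -- misses K
      have : {F : ClosedSubset d | F.carrier ∩ K = ∅}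
          = ⋃ t ∈ {t : Finset (ℕ × ℕ) | K ⊆ KK t}, {F | F.carrier ∩ KK t = ∅} := by
        ext F
        simp only [mem_ofPred_eq, mem_iUnion, exists_prop]
        constructor
        · intro hF
          have h1 : ∀ x ∈ K, ∃ q : ℕ × ℕ, x ∈ Metric.ball (D q.1) (1 / ((q.2:ℝ) + 1)) ∧
              Metric.closedBall (D q.1) (1 / ((q.2:ℝ) + 1)) ⊆ F.carrierᶜ := by
            intro x hx
            have hxF : x ∈ F.carrierᶜ := fun h => by
              rw [Set.eq_empty_iff_forall_notMem] at hF
              exact hF x ⟨h, hx⟩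
            obtain ⟨ε, hε, hb⟩ := Metric.isOpen_iff.mp F.isClosed.isOpen_compl x hxF
            obtain ⟨n, hn⟩ := exists_nat_one_div_lt (half_pos hε)
            obtain ⟨m, hm⟩ := hDd.exists_dist_lt x (show (0:ℝ) < 1 / ((n:ℝ) + 1) by positivity)
            refine ⟨(m, n), hm, ?_⟩
            intro y hy
            apply hb
            rw [Metric.mem_ball]
            have hy' : dist y (D m) ≤ 1 / ((n:ℝ) + 1) := hy
            calc dist y x ≤ dist y (D m) + dist x (D m) := dist_triangle_right _ _ _
              _ < ε := by linarith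
          choose! q hq1 hq2 using h1
          obtain ⟨t, ht⟩ := hK.elim_nhds_subcover'
            (fun x _ => Metric.ball (D (q x).1) (1 / (((q x).2:ℝ) + 1)))
            (fun x hx => Metric.isOpen_ball.mem_nhds (hq1 x hx))
          classical
          refine ⟨t.image (fun x : ↥K => q x.1), ?_, ?_⟩
          · intro y hy
            have := ht hy
            simp only [mem_iUnion] at this
            obtain ⟨x, hx, hyx⟩ := this
            simp only [hKK, mem_iUnion]
            exact ⟨q x, Finset.mem_image_of_mem _ hx, Metric.ball_subset_closedBall hyx⟩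
          · rw [Set.eq_empty_iff_forall_notMem]
            rintro y ⟨hyF, hy⟩
            simp only [hKK, mem_iUnion, Finset.mem_image] at hy
            obtain ⟨p, ⟨x, hx, rfl⟩, hy⟩ := hy
            exact hq2 x x.2 hy hyF
        · rintro ⟨t, ht, hF⟩
          rw [Set.eq_empty_iff_forall_notMem] at hF ⊢
          rintro y ⟨hyF, hyK⟩
          exact hF y ⟨hyF, ht hyK⟩
      rw [this]
      apply isOpen_biUnion
      intro t _
      exact TopologicalSpace.isOpen_generateFrom_of_mem (Or.inl ⟨t, rfl⟩)
    · have : {F : ClosedSubset d | (F.carrier ∩ U).Nonempty}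
          = ⋃ V ∈ {V | V ∈ B ∧ V ⊆ U}, {F | (F.carrier ∩ V).Nonempty} := by
        ext F
        simp only [mem_ofPred_eq, mem_iUnion, exists_prop]
        constructor
        · rintro ⟨x, hxF, hxU⟩
          obtain ⟨V, hV, hxV, hVU⟩ := hBb.exists_subset_of_mem_open hxU hU
          exact ⟨V, ⟨hV, hVU⟩, x, hxF, hxV⟩
        · rintro ⟨V, ⟨_, hVU⟩, x, hxF, hxV⟩
          exact ⟨x, hxF, hVU hxV⟩
      rw [this]
      apply isOpen_biUnion
      intro V hV
      exact TopologicalSpace.isOpen_generateFrom_of_mem (Or.inr ⟨V, hV.1, rfl⟩)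

/-- joint continuity of translations -/
lemma continuous_translate :
    Continuous (fun q : Eu d × ClosedSubset d => ClosedSubset.translate q.1 q.2) := by
  apply continuous_generateFrom_iff.mpr
  rintro s (⟨K, hK, rfl⟩ | ⟨U, hU, rfl⟩)
  · rw [isOpen_iff_mem_nhds]
    rintro ⟨a, F⟩ hF
    simp only [mem_preimage, mem_ofPred_eq, ClosedSubset.translate] at hF
    -- K - a is compact and disjoint from F
    set K' : Set (Eu d) := (fun x => x - a) '' K with hK'
    have hK'c : IsCompact K' := hK.image (continuous_id.sub continuous_const)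
    have hdis : Disjoint K' F.carrier := by
      rw [Set.disjoint_left]
      rintro _ ⟨x, hx, rfl⟩ hxF
      rw [Set.eq_empty_iff_forall_notMem] at hF
      exact hF x ⟨hxF, hx⟩
    obtain ⟨δ, hδ, hd⟩ := hdis.exists_cthickenings hK'c F.isClosed
    have hmiss : {G : ClosedSubset d | G.carrier ∩ Metric.cthickening δ K' = ∅} ∈ 𝓝 F := by
      apply (isOpen_miss _ hK'c.cthickening).mem_nhds
      simp only [mem_ofPred_eq]
      rw [Set.eq_empty_iff_forall_notMem]
      rintro y ⟨hyF, hy⟩
      exact Set.disjoint_left.mp hd hy (Metric.self_subset_cthickening _ hyF)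
    have hball : Metric.ball a δ ∈ 𝓝 a := Metric.ball_mem_nhds _ hδ
    filter_upwards [prod_mem_nhds hball hmiss] with ⟨b, G⟩ ⟨hb, hG⟩
    simp only [mem_preimage, mem_ofPred_eq, ClosedSubset.translate] at hG ⊢
    rw [Set.eq_empty_iff_forall_notMem] at hG ⊢
    rintro x ⟨hxG, hxK⟩
    apply hG (x - b)
    refine ⟨hxG, ?_⟩
    apply Metric.mem_cthickening_of_dist_le (x - b) (x - a) δ K' ⟨x, hxK, rfl⟩
    rw [dist_sub_left]
    exact (Metric.mem_ball.mp hb).le
  · rw [isOpen_iff_mem_nhds]
    rintro ⟨a, F⟩ ⟨x, hxF, hxU⟩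
    simp only [ClosedSubset.translate, mem_ofPred_eq] at hxF
    have hcont : Continuous (fun q : Eu d × Eu d => q.1 + q.2) := continuous_add
    have hmem : (fun q : Eu d × Eu d => q.1 + q.2) ⁻¹' U ∈ 𝓝 (a, x - a) := by
      apply (hU.preimage hcont).mem_nhds
      simpa using hxU
    rw [mem_nhds_prod_iff'] at hmem
    obtain ⟨V, W, hV, haV, hW, hxW, hVW⟩ := hmem
    have hhit : {G : ClosedSubset d | (G.carrier ∩ W).Nonempty} ∈ 𝓝 F :=
      (isOpen_hit _ hW).mem_nhds ⟨x - a, hxF, hxW⟩
    filter_upwards [prod_mem_nhds (hV.mem_nhds haV) hhit] with ⟨b, G⟩ ⟨hb, hG⟩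
    obtain ⟨y, hyG, hyW⟩ := hG
    refine ⟨b + y, ?_, hVW (show ((b, y) : Eu d × Eu d) ∈ V ×ˢ W from ⟨hb, hyW⟩)⟩
    simp only [ClosedSubset.translate, mem_ofPred_eq]
    simpa using hyG

end Pool.Agent.LibRCS
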